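import Pool.Agent.TGM.St1
import Pool.Agent.RMS.IDX

/-!
# Project TGM, module PRT (helper39): the traces, stopped at the change number `m + 1`
-/

set_option autoImplicit false

open Finset
open scoped Classical

namespace Pool.Agent.TGM

open Pool.Agent.RMS (TM Tra Vld rm)
open Pool.Agent.RMS.IDX (exists_map mk mk_succ mk_succ' emb_inj rm_succ gr rm_mem fx mk_fx vld_fx)

namespace PRT

variable {P V Γ L D A O : Type}

/-- the trace up to time `T` -/
def cut {B : Finset L} {N : ℕ} (f : Fin N → Option (V × B)) (T : ℕ) (u : Fin N) : Option (V × B) :=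
  if u.1 < T then f u else none

lemma mk_cut {B : Finset L} {N : ℕ} (f : Fin N → Option (V × B)) {T t : ℕ} (h : t < T) :
    mk (cut f T) (t + 1) = mk f (t + 1) := by
  by_cases h1 : t < N
  · rw [mk_succ _ h1, mk_succ _ h1]
    unfold cut
    rw [if_pos h]
  · rw [mk_succ' _ h1, mk_succ' _ h1]

lemma mk_cut' {B : Finset L} {N : ℕ} (f : Fin N → Option (V × B)) {T t : ℕ} (h : T ≤ t) :
    mk (cut f T) (t + 1) = none := by
  by_cases h1 : t < N
  · rw [mk_succ _ h1]
    unfold cut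
    rw [if_neg (by simpa using h)]
    rfl
  · rw [mk_succ' _ h1]

lemma rm_cut [Zero L] (e : L ≃ A × O) {B : Finset L} {N : ℕ} (f : Fin N → Option (V × B)) {T : ℕ}
    (t : ℕ) (h : t ≤ T) : rm e (mk (cut f T)) t = rm e (mk f) t := by
  induction t with
  | zero => rfl
  | succ t ih =>
    rw [rm_succ, rm_succ, mk_cut f (by omega), ih (by omega)]

lemma vld_cut [Zero L] (e : L ≃ A × O) {B : Finset L} {N : ℕ} (f : Fin N → Option (V × B)) (T : ℕ)
    (h : Vld e (mk f)) : Vld e (mk (cut f T)) := by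
  intro t q hq
  by_cases ht : t < T
  · rw [rm_cut e f t ht.le]
    rw [mk_cut f ht] at hq
    exact h t q hq
  · rw [mk_cut' f (by omega)] at hq
    exact absurd hq (by simp)

lemma tra_cut [Zero L] (R : TM P V Γ L D) (ac : D → L → L) (e : L ≃ A × O) {N : ℕ}
    {B : Finset L} (x : P → Bool) (hB : ∀ t ≤ N, (R.conf ac x t).p ∈ B)
    (f : Fin N → Option (V × B)) {T : ℕ} (hT : T ≤ N) (hf : ∀ u : Fin N, T ≤ u.1 → f u = none) :
    Tra R ac e (mk f) x T ↔ f = cut (fx R ac e x hB) T := by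
  constructor
  · intro h
    funext u
    unfold cut
    by_cases hu : u.1 < T
    · rw [if_pos hu]
      have h1 := h u.1 hu
      rw [← mk_fx R ac e x hB u.2, mk_succ _ u.2, mk_succ _ u.2] at h1
      exact Option.map_injective emb_inj h1
    · rw [if_neg hu]
      exact hf u (by omega)
  · intro h u hu
    rw [h, mk_cut _ hu]
    exact mk_fx R ac e x hB (by omega)

/-- the number of the changes before time `T` -/
noncomputable def cg [Zero L] (R : TM P V Γ L D) (ac : D → L → L) (e : L ≃ A × O) (x : P → Bool)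
    (T : ℕ) : ℕ := ∑ t ∈ range T, R.chg ac e x t

lemma chg_le [Zero L] (R : TM P V Γ L D) (ac : D → L → L) (e : L ≃ A × O) (x : P → Bool)
    (t : ℕ) : R.chg ac e x t ≤ 1 := by
  unfold TM.chg
  split_ifs <;> omega

lemma cg_succ [Zero L] (R : TM P V Γ L D) (ac : D → L → L) (e : L ≃ A × O) (x : P → Bool)
    (t : ℕ) : cg R ac e x (t + 1) = cg R ac e x t + R.chg ac e x t := by
  unfold cg
  rw [sum_range_succ]

lemma cg_mono [Zero L] (R : TM P V Γ L D) (ac : D → L → L) (e : L ≃ A × O) (x : P → Bool) :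
    Monotone (cg R ac e x) :=
  monotone_nat_of_le_succ fun t => by rw [cg_succ]; omega

lemma sup_cut [Zero L] (R : TM P V Γ L D) (ac : D → L → L) (e : L ≃ A × O) {N : ℕ}
    {B : Finset L} (x : P → Bool) (hB : ∀ t ≤ N, (R.conf ac x t).p ∈ B) {T : ℕ} (hT : T ≤ N) :
    (RMS.IDX.sup (cut (fx R ac e x hB) T)).card = cg R ac e x T := by
  have h1 : cg R ac e x T = ∑ t ∈ range N, if t < T then R.chg ac e x t else 0 := by
    rw [← sum_filter]
    unfold cg
    refine sum_congr ?_ fun _ _ => rfl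
    ext t
    simp only [mem_range, mem_filter]
    omega
  rw [h1, Finset.sum_range]
  unfold RMS.IDX.sup
  rw [Finset.card_filter]
  refine Finset.sum_congr rfl fun u _ => ?_
  unfold cut
  by_cases hu : u.1 < T
  · rw [if_pos hu, if_pos hu]
    unfold fx TM.chg
    by_cases h : (e (R.conf ac x (u.1 + 1)).p).1 = (e (R.conf ac x u.1).p).1
    · rw [if_pos h, if_pos h]
      simp
    · rw [if_neg h, if_neg h]
      simp
  · rw [if_neg hu, if_neg hu]
    simp

lemma fx_ne [Zero L] (R : TM P V Γ L D) (ac : D → L → L) (e : L ≃ A × O) {N : ℕ}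
    {B : Finset L} (x : P → Bool) (hB : ∀ t ≤ N, (R.conf ac x t).p ∈ B) (u : Fin N) :
    fx R ac e x hB u ≠ none ↔ R.chg ac e x u.1 = 1 := by
  unfold fx TM.chg
  by_cases h : (e (R.conf ac x (u.1 + 1)).p).1 = (e (R.conf ac x u.1).p).1
  · rw [if_pos h, if_pos h]
    simp
  · rw [if_neg h, if_neg h]
    simp

/-- the good triples -/
def Good {B : Finset L} {N : ℕ} (m : ℕ) (z : Fin (N + 1) × (Fin N → Option (V × B)) × V) : Prop :=
  z.1.1 = N ∧ (RMS.IDX.sup z.2.1).card ≤ m

/-- the bad triples -/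
def Bad {B : Finset L} {N : ℕ} (m : ℕ) (z : Fin (N + 1) × (Fin N → Option (V × B)) × V) : Prop :=
  (RMS.IDX.sup z.2.1).card = m + 1 ∧ ∃ u : Fin N, u.1 + 1 = z.1.1 ∧ z.2.1 u ≠ none

/-- the triples -/
def Ok [Zero L] (e : L ≃ A × O) {B : Finset L} {N : ℕ} (m : ℕ)
    (z : Fin (N + 1) × (Fin N → Option (V × B)) × V) : Prop :=
  Vld e (mk z.2.1) ∧ (∀ u : Fin N, z.1.1 ≤ u.1 → z.2.1 u = none) ∧ (Good m z ∨ Bad m z)

lemma Ok.card [Zero L] {e : L ≃ A × O} {B : Finset L} {N : ℕ} {m : ℕ}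
    {z : Fin (N + 1) × (Fin N → Option (V × B)) × V} (h : Ok e m z) :
    (RMS.IDX.sup z.2.1).card ≤ m + 1 := by
  rcases h.2.2 with h | h
  · have := h.2
    omega
  · exact h.1.le

/-- a fitting triple -/
lemma fit [Zero L] (R : TM P V Γ L D) (ac : D → L → L) (e : L ≃ A × O) {N : ℕ} (m : ℕ)
    {B : Finset L} (x : P → Bool) (hB : ∀ t ≤ N, (R.conf ac x t).p ∈ B)
    {z : Fin (N + 1) × (Fin N → Option (V × B)) × V} (hz : Ok e m z)
    (h : Tra R ac e (mk z.2.1) x z.1.1) :
    z.2.1 = cut (fx R ac e x hB) z.1.1 ∧ (RMS.IDX.sup z.2.1).card = cg R ac e x z.1.1 := by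
  have h1 := (tra_cut R ac e x hB z.2.1 (Nat.lt_succ_iff.1 z.1.2) hz.2.1).1 h
  refine ⟨h1, ?_⟩
  rw [← sup_cut R ac e x hB (Nat.lt_succ_iff.1 z.1.2), ← h1]

lemma fit_good [Zero L] (R : TM P V Γ L D) (ac : D → L → L) (e : L ≃ A × O) {N : ℕ} (m : ℕ)
    {B : Finset L} (x : P → Bool) (hB : ∀ t ≤ N, (R.conf ac x t).p ∈ B)
    {z : Fin (N + 1) × (Fin N → Option (V × B)) × V} (hz : Ok e m z)
    (h : Tra R ac e (mk z.2.1) x z.1.1) : Good m z ↔ cg R ac e x N ≤ m := by
  obtain ⟨h1, h2⟩ := fit R ac e m x hB hz h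
  constructor
  · intro hg
    rw [← hg.1, ← h2]
    exact hg.2
  · intro hc
    rcases hz.2.2 with hg | hb
    · exact hg
    · have h3 := cg_mono R ac e x (Nat.lt_succ_iff.1 z.1.2)
      have h4 := hb.1
      omega

lemma fit_bad [Zero L] (R : TM P V Γ L D) (ac : D → L → L) (e : L ≃ A × O) {N : ℕ} (m : ℕ)
    {B : Finset L} (x : P → Bool) (hB : ∀ t ≤ N, (R.conf ac x t).p ∈ B)
    {z : Fin (N + 1) × (Fin N → Option (V × B)) × V} (hz : Ok e m z)
    (h : Tra R ac e (mk z.2.1) x z.1.1) (hb : Bad m z) {t : ℕ} :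
    m + 1 ≤ cg R ac e x t ↔ z.1.1 ≤ t := by
  obtain ⟨h1, h2⟩ := fit R ac e m x hB hz h
  have h3 := hb.1
  obtain ⟨u, hu, hn⟩ := hb.2
  constructor
  · intro ht
    by_contra hlt
    push Not at hlt
    have h4 : fx R ac e x hB u ≠ none := by
      intro h5
      apply hn
      rw [h1]
      unfold cut
      split_ifs
      · exact h5
      · rfl
    have h5 := (fx_ne R ac e x hB u).1 h4
    have h6 := cg_succ R ac e x u.1
    rw [hu, h5] at h6
    have h7 := cg_mono R ac e x (show t ≤ u.1 by omega)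
    omega
  · intro ht
    have h4 := cg_mono R ac e x ht
    omega

lemma uniq [Zero L] (R : TM P V Γ L D) (ac : D → L → L) (e : L ≃ A × O) {N : ℕ} (m : ℕ)
    {B : Finset L} (x : P → Bool) (hB : ∀ t ≤ N, (R.conf ac x t).p ∈ B)
    {z z' : Fin (N + 1) × (Fin N → Option (V × B)) × V} (hz : Ok e m z) (hz' : Ok e m z')
    (h : Tra R ac e (mk z.2.1) x z.1.1) (h' : Tra R ac e (mk z'.2.1) x z'.1.1)
    (hw : (R.conf ac x z.1.1).v = z.2.2) (hw' : (R.conf ac x z'.1.1).v = z'.2.2) : z = z' := by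
  have hT : z.1.1 = z'.1.1 := by
    by_cases hc : cg R ac e x N ≤ m
    · rw [((fit_good R ac e m x hB hz h).2 hc).1, ((fit_good R ac e m x hB hz' h').2 hc).1]
    · have hb : Bad m z := by
        rcases hz.2.2 with hg | hb
        · exact absurd ((fit_good R ac e m x hB hz h).1 hg) hc
        · exact hb
      have hb' : Bad m z' := by
        rcases hz'.2.2 with hg | hb
        · exact absurd ((fit_good R ac e m x hB hz' h').1 hg) hc
        · exact hb
      apply le_antisymm
      · exact (fit_bad R ac e m x hB hz h hb).1 ((fit_bad R ac e m x hB hz' h' hb').2 le_rfl)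
      · exact (fit_bad R ac e m x hB hz' h' hb').1 ((fit_bad R ac e m x hB hz h hb).2 le_rfl)
  have hf : z.2.1 = z'.2.1 := by
    rw [(fit R ac e m x hB hz h).1, (fit R ac e m x hB hz' h').1, hT]
  have hv : z.2.2 = z'.2.2 := by rw [← hw, ← hw', hT]
  exact Prod.ext (Fin.ext hT) (Prod.ext hf hv)

lemma exis [Zero L] (R : TM P V Γ L D) (ac : D → L → L) (e : L ≃ A × O) {N : ℕ} (m : ℕ)
    {B : Finset L} (x : P → Bool) (hB : ∀ t ≤ N, (R.conf ac x t).p ∈ B) :
    ∃ z : Fin (N + 1) × (Fin N → Option (V × B)) × V, Ok e m z ∧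
      Tra R ac e (mk z.2.1) x z.1.1 ∧ (R.conf ac x z.1.1).v = z.2.2 := by
  have key : ∀ T (hT : T ≤ N), (Good m (⟨⟨T, Nat.lt_succ_of_le hT⟩, cut (fx R ac e x hB) T,
      (R.conf ac x T).v⟩ : Fin (N + 1) × (Fin N → Option (V × B)) × V) ∨
      Bad m (⟨⟨T, Nat.lt_succ_of_le hT⟩, cut (fx R ac e x hB) T,
      (R.conf ac x T).v⟩ : Fin (N + 1) × (Fin N → Option (V × B)) × V)) →
      ∃ z : Fin (N + 1) × (Fin N → Option (V × B)) × V, Ok e m z ∧
      Tra R ac e (mk z.2.1) x z.1.1 ∧ (R.conf ac x z.1.1).v = z.2.2 := by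
    intro T hT h
    have h0 : ∀ u : Fin N, T ≤ u.1 → cut (fx R ac e x hB) T u = none := by
      intro u hu
      unfold cut
      rw [if_neg (by omega)]
    exact ⟨_, ⟨vld_cut e _ T (vld_fx R ac e x hB), h0, h⟩,
      (tra_cut R ac e x hB _ hT h0).2 rfl, rfl⟩
  by_cases hc : cg R ac e x N ≤ m
  · refine key N le_rfl (Or.inl ⟨rfl, ?_⟩)
    show (RMS.IDX.sup (cut (fx R ac e x hB) N)).card ≤ m
    rw [sup_cut R ac e x hB le_rfl]
    exact hc
  · have hex : ∃ t, m + 1 ≤ cg R ac e x t := ⟨N, by omega⟩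
    have h1 := Nat.find_spec hex
    have h2 : Nat.find hex ≤ N := Nat.find_min' hex (by omega)
    have h3 : Nat.find hex ≠ 0 := by
      intro h
      rw [h] at h1
      have : cg R ac e x 0 = 0 := by simp [cg]
      omega
    obtain ⟨u, hu⟩ := Nat.exists_eq_succ_of_ne_zero h3
    have h4 : ¬ m + 1 ≤ cg R ac e x u := Nat.find_min hex (by omega)
    have h5 := cg_succ R ac e x u
    have h6 := chg_le R ac e x u
    have h7 : cg R ac e x (u + 1) = m + 1 := by
      have : m + 1 ≤ cg R ac e x (u + 1) := by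
        rw [show u + 1 = Nat.find hex from hu.symm]
        exact h1
      omega
    refine key (u + 1) (by omega) (Or.inr ⟨?_, ⟨u, by omega⟩, rfl, ?_⟩)
    · show (RMS.IDX.sup (cut (fx R ac e x hB) (u + 1))).card = m + 1
      rw [sup_cut R ac e x hB (by omega)]
      exact h7
    · show cut (fx R ac e x hB) (u + 1) ⟨u, _⟩ ≠ none
      unfold cut
      rw [if_pos (Nat.lt_succ_self u)]
      refine (fx_ne R ac e x hB ⟨u, by omega⟩).2 ?_
      show R.chg ac e x u = 1
      omega

end PRT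

open PRT in
theorem t_PRT : S_PRT := by
  intro P V Γ L D A O _ _ R ac e N m B hB
  let ι : Type := {z : Fin (N + 1) × (Fin N → Option (V × B)) × V // Ok e m z}
  have hcard : Fintype.card ι ≤
      (N + 1) * ((N + 1) * Fintype.card V * B.card + 1) ^ (m + 1) * Fintype.card V := by
    have h1 : ∀ i : ι, ∃ φ : Fin (m + 1) → Option (Fin N × V × B), ∀ t q,
        i.1.2.1 t = some q ↔ ∃ j, φ j = some (t, q) := by
      intro i
      have h2 : ((univ : Finset (Fin N × V × B)).filter fun z =>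
          i.1.2.1 z.1 = some z.2).card ≤ m + 1 := by
        refine le_trans ?_ i.2.card
        refine Finset.card_le_card_of_injOn (fun z => z.1) ?_ ?_
        · intro z hz
          have hz' := (mem_filter.1 hz).2
          refine mem_filter.2 ⟨mem_univ _, ?_⟩
          show i.1.2.1 z.1 ≠ none
          rw [hz']
          simp
        · intro z hz z' hz' h
          have h3 := (mem_filter.1 hz).2
          have h4 := (mem_filter.1 hz').2
          have h5 : z.1 = z'.1 := h
          rw [h5, h4] at h3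
          exact Prod.ext h5 (Option.some_injective _ h3).symm
      obtain ⟨φ, hφ⟩ := exists_map _ h2
      refine ⟨φ, fun t q => ?_⟩
      rw [← hφ (t, q), mem_filter]
      simp
    choose φ hφ using h1
    let ψ : ι → Fin (N + 1) × (Fin (m + 1) → Option (Fin N × V × B)) × V :=
      fun i => (i.1.1, φ i, i.1.2.2)
    have hinj : Function.Injective ψ := by
      intro i i' h
      have ha : (ψ i).1 = (ψ i').1 := by rw [h]
      have hb : (ψ i).2.1 = (ψ i').2.1 := by rw [h]
      have hc : (ψ i).2.2 = (ψ i').2.2 := by rw [h]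
      refine Subtype.ext (Prod.ext ha (Prod.ext (funext fun t => ?_) hc))
      refine Option.ext fun q => ?_
      rw [hφ i t q, hφ i' t q, show φ i = φ i' from hb]
    refine (Fintype.card_le_of_injective ψ hinj).trans ?_
    simp only [Fintype.card_fun, Fintype.card_option, Fintype.card_prod, Fintype.card_fin,
      Fintype.card_coe]
    rw [mul_assoc (N + 1)]
    refine Nat.mul_le_mul_left _ (Nat.mul_le_mul_right _ (Nat.pow_le_pow_left ?_ _))
    rw [← mul_assoc]
    gcongr
    omega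
  refine ⟨ι, inferInstance, fun i => i.1.1.1, fun i => mk i.1.2.1, fun i => i.1.2.2,
    fun i => Good m i.1, hcard, fun i => ⟨Nat.lt_succ_iff.1 i.1.1.2, i.2.1, ?_, fun h => h.1⟩,
    fun x => ⟨?_, fun i hi => fit_good R ac e m x (hB x) i.2 hi.1⟩⟩
  · refine (Finset.card_le_card (t := insert (e 0).1 ((RMS.IDX.sup i.1.2.1).image (gr e i.1.2.1))) ?_).trans
      ?_
    · intro a ha
      obtain ⟨t, -, rfl⟩ := mem_image.1 ha
      exact rm_mem e i.1.2.1 t
    · refine (card_insert_le _ _).trans ?_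
      exact Nat.succ_le_succ (card_image_le.trans i.2.card)
  · obtain ⟨z, hz, h1, h2⟩ := exis R ac e m x (hB x)
    exact ⟨⟨z, hz⟩, ⟨h1, h2⟩, fun i hi => Subtype.ext
      (uniq R ac e m x (hB x) i.2 hz hi.1 h1 hi.2 h2)⟩

end Pool.Agent.TGM
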