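import Pool.Agent.TGM.St1
import Pool.Agent.RMS.Pw

/-!
# Project TGM: the numbers (TNU)
-/

set_option autoImplicit false

open Finset
open Pool.Agent.RMS (pw)

namespace Pool.Agent.TGM

namespace TNU

theorem mul' {x y a b : ℝ} (h1 : x ≤ Real.exp a) (hy : 0 ≤ y) (h2 : y ≤ Real.exp b) :
    x * y ≤ Real.exp (a + b) := by
  rw [Real.exp_add]
  exact mul_le_mul h1 h2 hy (Real.exp_pos _).le

theorem pow' {x a : ℝ} (hx : 0 ≤ x) (h1 : x ≤ Real.exp a) (k : ℕ) :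
    x ^ k ≤ Real.exp (k * a) := by
  rw [Real.exp_nat_mul]
  exact pow_le_pow_left₀ hx h1 k

theorem two_le : (2 : ℝ) ≤ Real.exp 1 := by
  have := Real.add_one_le_exp (1 : ℝ)
  linarith

theorem succ' {x a : ℝ} (ha : 0 ≤ a) (h1 : x ≤ Real.exp a) : x + 1 ≤ Real.exp (a + 1) := by
  rw [Real.exp_add]
  have h2 : 1 ≤ Real.exp a := Real.one_le_exp ha
  have h3 := two_le
  nlinarith

theorem mono' {x a b : ℝ} (h1 : x ≤ Real.exp a) (h : a ≤ b) : x ≤ Real.exp b :=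
  h1.trans (Real.exp_le_exp.2 h)

theorem hundred : (100 : ℝ) ≤ Real.exp 5 := by
  have h := Real.exp_one_gt_d9
  have h1 : Real.exp 5 = Real.exp 1 ^ 5 := by
    rw [← Real.exp_nat_mul]
    norm_num
  rw [h1]
  calc (100 : ℝ) ≤ 2.7 ^ 5 := by norm_num
    _ ≤ Real.exp 1 ^ 5 := pow_le_pow_left₀ (by norm_num) (by linarith) 5

theorem five (s : ℕ) (h : 243 ≤ s) : 5 ≤ Real.log s := by
  have hs : (243 : ℝ) ≤ s := by exact_mod_cast h
  rw [Real.le_log_iff_exp_le (by linarith)]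
  have h := Real.exp_one_lt_d9
  have h1 : Real.exp 5 = Real.exp 1 ^ 5 := by
    rw [← Real.exp_nat_mul]
    norm_num
  rw [h1]
  calc Real.exp 1 ^ 5 ≤ 3 ^ 5 := pow_le_pow_left₀ (Real.exp_pos _).le (by linarith) 5
    _ = 243 := by norm_num
    _ ≤ s := hs

theorem cntb (s d v γ u N m r o : ℕ) (l y X : ℝ) (hl : l = Real.log s) (h5 : 5 ≤ l)
    (hs : 0 < s) (hy : 0 ≤ y) (hX : 0 ≤ X) (hv1 : 1 ≤ v) (hv : (v : ℝ) ≤ Real.exp y)
    (ho : (o : ℝ) ≤ Real.exp l) (hγ : (γ : ℝ) ^ o ≤ Real.exp X) (hu : u ≤ s)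
    (hN : N + 1 ≤ s ^ 2) (hm : m ≤ 20 * N) :
    Real.log (cnt v γ o ((2 * N + 1) ^ d) u N m (4 * r + 1)) ≤
      2 * l + ((m : ℝ) + 1) * (y + (3 * d + 3) * l) + y +
        (4 * (r : ℝ) + 3) * (31 * l + 2 * y + 2 * X) := by
  have hsR : (0 : ℝ) < s := by exact_mod_cast hs
  have hse : (s : ℝ) ≤ Real.exp l := by rw [hl, Real.exp_log hsR]
  have f1 : ((N : ℝ) + 1) ≤ Real.exp (2 * l) := by
    have h1 : ((N : ℝ) + 1) ≤ (s : ℝ) ^ 2 := by exact_mod_cast hN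
    refine h1.trans ?_
    have h2 := pow' hsR.le hse 2
    exact_mod_cast h2
  have f1' : (N : ℝ) ≤ Real.exp (2 * l) := by linarith
  have N0 : (0 : ℝ) ≤ N := Nat.cast_nonneg _
  have v0 : (0 : ℝ) ≤ v := Nat.cast_nonneg _
  have o0 : (0 : ℝ) ≤ o := Nat.cast_nonneg _
  have u0 : (0 : ℝ) ≤ u := Nat.cast_nonneg _
  have m0 : (0 : ℝ) ≤ m := Nat.cast_nonneg _
  have g0 : (0 : ℝ) ≤ (γ : ℝ) ^ o := by positivity
  have f2 : (2 * (N : ℝ) + 1) ≤ Real.exp (3 * l) := by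
    have h1 : (2 * (N : ℝ) + 1) ≤ 2 * ((N : ℝ) + 1) := by linarith
    refine h1.trans ?_
    have h2 := mul' two_le (by positivity) f1
    exact mono' h2 (by linarith)
  have f3 : (2 * (N : ℝ) + 1) ^ d ≤ Real.exp (d * (3 * l)) := pow' (by positivity) f2 d
  have d0 : (0 : ℝ) ≤ d := Nat.cast_nonneg _
  have dl : 0 ≤ (d : ℝ) * l := mul_nonneg d0 (by linarith)
  have f4 : ((N : ℝ) + 1) * v * (2 * (N : ℝ) + 1) ^ d + 1 ≤ Real.exp (y + (3 * d + 3) * l) := by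
    have h1 := succ' (by nlinarith) (mul' (mul' f1 v0 hv) (by positivity) f3)
    exact mono' h1 (by nlinarith)
  have f5 : (((N : ℝ) + 1) * v * (2 * (N : ℝ) + 1) ^ d + 1) ^ (m + 1) ≤
      Real.exp (((m + 1 : ℕ) : ℝ) * (y + (3 * d + 3) * l)) := pow' (by positivity) f4 _
  have f6 : ((m : ℝ) + 2) * N + 1 ≤ Real.exp (6 * l) := by
    have hm' : (m : ℝ) ≤ 20 * N := by exact_mod_cast hm
    have h1 : (m : ℝ) + 2 ≤ 100 * ((N : ℝ) + 1) := by linarith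
    have h2 := h1.trans (mul' hundred (by positivity) f1)
    have h3 := succ' (by linarith) (mul' h2 N0 f1')
    exact mono' h3 (by linarith)
  have f7 : (N : ℝ) * u + 1 ≤ Real.exp (4 * l) := by
    have hu' : (u : ℝ) ≤ Real.exp l := le_trans (by exact_mod_cast hu) hse
    have h3 := succ' (by linarith) (mul' f1' u0 hu')
    exact mono' h3 (by linarith)
  have f8 : (v : ℝ) * o * (γ : ℝ) ^ o * ((N : ℝ) * u + 1) + 1 ≤ Real.exp (y + X + 6 * l) := by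
    have h1 := succ' (by linarith) (mul' (mul' (mul' hv o0 ho) g0 hγ) (by positivity) f7)
    exact mono' h1 (by linarith)
  have f9 : (((m : ℝ) + 2) * N + 1) * (1 + (v : ℝ) * o * (γ : ℝ) ^ o * ((N : ℝ) * u + 1)) + 1 ≤
      Real.exp (y + X + 13 * l) := by
    have f8' : 1 + (v : ℝ) * o * (γ : ℝ) ^ o * ((N : ℝ) * u + 1) ≤ Real.exp (y + X + 6 * l) := by
      linarith
    have h1 := succ' (by linarith) (mul' f6 (by positivity) f8')
    exact mono' h1 (by linarith)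
  have f10 : 100 * ((N : ℝ) + 1) ^ 2 * ((((m : ℝ) + 2) * N + 1) *
      (1 + (v : ℝ) * o * (γ : ℝ) ^ o * ((N : ℝ) * u + 1)) + 1) ^ 2 ≤
      Real.exp (31 * l + 2 * y + 2 * X) := by
    have h1 := mul' (mul' hundred (by positivity) (pow' (by positivity) f1 2)) (by positivity)
      (pow' (by positivity) f9 2)
    refine mono' h1 ?_
    push_cast
    linarith
  have f11 : (100 * ((N : ℝ) + 1) ^ 2 * ((((m : ℝ) + 2) * N + 1) *
      (1 + (v : ℝ) * o * (γ : ℝ) ^ o * ((N : ℝ) * u + 1)) + 1) ^ 2) ^ (4 * r + 1 + 2) ≤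
      Real.exp (((4 * r + 1 + 2 : ℕ) : ℝ) * (31 * l + 2 * y + 2 * X)) :=
    pow' (by positivity) f10 _
  have f12 := mul' (mul' (mul' f1 (by positivity) f5) v0 hv) (by positivity) f11
  have e1 : ((cnt v γ o ((2 * N + 1) ^ d) u N m (4 * r + 1) : ℕ) : ℝ) =
      ((N : ℝ) + 1) * (((N : ℝ) + 1) * v * (2 * (N : ℝ) + 1) ^ d + 1) ^ (m + 1) * v *
      (100 * ((N : ℝ) + 1) ^ 2 * ((((m : ℝ) + 2) * N + 1) *
      (1 + (v : ℝ) * o * (γ : ℝ) ^ o * ((N : ℝ) * u + 1)) + 1) ^ 2) ^ (4 * r + 1 + 2) := by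
    unfold cnt
    push_cast
    rfl
  have v1 : (0 : ℝ) < v := by exact_mod_cast hv1
  rw [e1, Real.log_le_iff_le_exp (by positivity)]
  refine mono' f12 (le_of_eq ?_)
  push_cast
  ring

theorem floor_half (x : ℝ) (hx : 1 ≤ x) : x / 2 ≤ (⌊x⌋₊ : ℝ) := by
  have h1 := Nat.lt_floor_add_one x
  have h2 : (1 : ℝ) ≤ (⌊x⌋₊ : ℝ) := by exact_mod_cast (Nat.one_le_floor_iff x).2 hx
  linarith

end TNU

open TNU in
/-- TNU. -/
theorem t_TNU : S_TNU := by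
  intro d ε hd hε hε1
  have hd0 : (0 : ℝ) < d := by exact_mod_cast hd
  have hd1 : (1 : ℝ) ≤ d := by exact_mod_cast hd
  obtain ⟨β, hβ⟩ : ∃ β : ℝ, β = (1 - 3 * ε / 4) / d := ⟨_, rfl⟩
  obtain ⟨δ, hδ⟩ : ∃ δ : ℝ, δ = β - ε / (8 * d) := ⟨_, rfl⟩
  have hβ0 : 0 < β := by rw [hβ]; apply div_pos <;> linarith
  have hβd : β * d = 1 - 3 * ε / 4 := by rw [hβ]; field_simp
  have hδ' : δ = (1 - 7 * ε / 8) / d := by rw [hδ, hβ]; field_simp; ring
  have hδ0 : 0 < δ := by rw [hδ']; apply div_pos <;> linarith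
  have hδ1 : (1 - ε) / d < δ := by
    rw [hδ']
    apply div_lt_div_of_pos_right _ hd0
    linarith
  have hq : (1 - ε) / d < 1 - ε / 4 := by
    have : (1 - ε) / d ≤ 1 - ε := by
      rw [div_le_iff₀ hd0]
      nlinarith
    linarith
  obtain ⟨n1, h1⟩ := pw 40 ((1 - ε) / d) δ 0 hδ1
  obtain ⟨n2, h2⟩ := pw (40 * (3 * d + 3)) 0 δ 1 hδ0
  obtain ⟨n3, h3⟩ := pw 1 ((1 - ε) / d) (1 - ε / 4) 0 hq
  obtain ⟨n4, h4⟩ := pw 31 0 (1 - ε / 4) 1 (by linarith)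
  obtain ⟨n5, h5⟩ := pw (3 * d + 5) 0 (1 - ε / 4) 1 (by linarith)
  refine ⟨max 243 (max n1 (max n2 (max n3 (max n4 n5)))), fun s hs => ?_⟩
  simp only [ge_iff_le, max_le_iff] at hs
  obtain ⟨hs0, hs1, hs2, hs3, hs4, hs5⟩ := hs
  have g1 := h1 s hs1
  have g2 := h2 s hs2
  have g3 := h3 s hs3
  have g4 := h4 s hs4
  have g5 := h5 s hs5
  have hl5 := five s hs0
  simp only [Real.rpow_zero, pow_zero, pow_one, mul_one, one_mul] at g1 g2 g3 g4 g5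
  obtain ⟨l, hl⟩ : ∃ l : ℝ, l = Real.log s := ⟨_, rfl⟩
  obtain ⟨y, hy⟩ : ∃ y : ℝ, y = (s : ℝ) ^ ((1 - ε) / d) := ⟨_, rfl⟩
  obtain ⟨X, hX⟩ : ∃ X : ℝ, X = (s : ℝ) ^ (1 - ε / 4) := ⟨_, rfl⟩
  have hsR : (243 : ℝ) ≤ s := by exact_mod_cast hs0
  have hsp : (0 : ℝ) < s := by linarith
  have hy0 : 0 ≤ y := by rw [hy]; positivity
  have hX0 : 0 ≤ X := by rw [hX]; positivity
  obtain ⟨B, hB⟩ : ∃ B : ℝ, B = (s : ℝ) ^ β := ⟨_, rfl⟩
  have hB1 : 1 ≤ B := by rw [hB]; exact Real.one_le_rpow (by linarith) hβ0.le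
  obtain ⟨Z, hZ⟩ : ∃ Z : ℕ, Z = ⌊B⌋₊ := ⟨_, rfl⟩
  have hZ1 : 1 ≤ Z := by rw [hZ]; exact (Nat.one_le_floor_iff B).2 hB1
  have hZB : (Z : ℝ) ≤ B := by rw [hZ]; exact Nat.floor_le (by linarith)
  have hBZ : B / 2 ≤ Z := by rw [hZ]; exact floor_half B hB1
  have hBd : B ^ d = (s : ℝ) ^ (1 - 3 * ε / 4) := by
    rw [hB, ← Real.rpow_natCast, ← Real.rpow_mul hsp.le, hβd]
  have hZd : ((Z ^ d : ℕ) : ℝ) ≤ (s : ℝ) ^ (1 - 3 * ε / 4) := by
    rw [← hBd]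
    push_cast
    exact pow_le_pow_left₀ (by positivity) hZB d
  refine ⟨Z, hZ1, ?_⟩
  intro v γ u N r hv1 hγ1 hv hγ hu hN hr
  have hZdl : ((Z ^ d : ℕ) : ℝ) ≤ Real.exp l := by
    rw [hl, Real.exp_log hsp]
    refine hZd.trans ?_
    calc (s : ℝ) ^ (1 - 3 * ε / 4) ≤ (s : ℝ) ^ (1 : ℝ) :=
          Real.rpow_le_rpow_of_exponent_le (by linarith) (by linarith)
      _ = s := Real.rpow_one _
  have hve : (v : ℝ) ≤ Real.exp y := by
    refine hv.trans ?_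
    rw [← hy, ← Real.exp_one_rpow]
    exact Real.rpow_le_rpow (by norm_num) two_le hy0
  have hγe : (γ : ℝ) ^ (Z ^ d) ≤ Real.exp X := by
    have h6 : (γ : ℝ) ≤ Real.exp ((s : ℝ) ^ (ε / 2)) := by
      refine hγ.trans ?_
      rw [← Real.exp_one_rpow]
      exact Real.rpow_le_rpow (by norm_num) two_le (by positivity)
    refine mono' (pow' (by positivity) h6 (Z ^ d)) ?_
    calc ((Z ^ d : ℕ) : ℝ) * (s : ℝ) ^ (ε / 2) ≤ (s : ℝ) ^ (1 - 3 * ε / 4) * (s : ℝ) ^ (ε / 2) :=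
          mul_le_mul_of_nonneg_right hZd (by positivity)
      _ = X := by
          rw [hX, ← Real.rpow_add hsp]
          congr 1
          ring
  refine ⟨20 * N / Z, ?_, ?_⟩
  · have h6 := Nat.lt_div_mul_add (a := 20 * N) (b := Z) hZ1
    rw [Nat.add_mul, one_mul]
    exact h6.le
  · obtain ⟨m, hm⟩ : ∃ m, m = 20 * N / Z := ⟨_, rfl⟩
    rw [← hm]
    have hm1 : m ≤ 20 * N := by rw [hm]; exact Nat.div_le_self _ _
    have hZp : (0 : ℝ) < Z := by exact_mod_cast hZ1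
    have hBp : (0 : ℝ) < B := by linarith
    have N0 : (0 : ℝ) ≤ N := Nat.cast_nonneg _
    have hm2 : (m : ℝ) ≤ 40 * N / B := by
      have h6 : m * Z ≤ 20 * N := by rw [hm]; exact Nat.div_mul_le_self _ _
      have h7 : (m : ℝ) * Z ≤ 20 * N := by exact_mod_cast h6
      rw [le_div_iff₀ hBp]
      have m0 : (0 : ℝ) ≤ m := Nat.cast_nonneg _
      nlinarith
    refine (cntb s d v γ u N m r (Z ^ d) l y X hl (by rw [hl]; exact hl5) (by omega) hy0 hX0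
      hv1 hve hZdl hγe hu hN hm1).trans ?_
    rw [← hl] at g2 g4 g5 hl5 ⊢
    rw [← hy] at g1 g3
    rw [← hX] at g3 g4 g5 ⊢
    obtain ⟨D, hD⟩ : ∃ D : ℝ, D = (s : ℝ) ^ δ := ⟨_, rfl⟩
    obtain ⟨F, hF⟩ : ∃ F : ℝ, F = (s : ℝ) ^ (ε / (8 * d)) := ⟨_, rfl⟩
    rw [← hD] at g1 g2
    rw [← hF]
    have hFp : 0 < F := by rw [hF]; positivity
    have hDp : 0 < D := by rw [hD]; positivity
    have hBDF : B = D * F := by
      rw [hB, hD, hF, ← Real.rpow_add hsp, hδ]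
      congr 1
      ring
    have k1 : (m : ℝ) * (y + (3 * d + 3) * l) ≤ (N : ℝ) / F * (3 * l) := by
      have h6 : 0 ≤ y + (3 * d + 3) * l := by positivity
      calc (m : ℝ) * (y + (3 * d + 3) * l) ≤ 40 * N / B * (y + (3 * d + 3) * l) :=
            mul_le_mul_of_nonneg_right hm2 h6
        _ = (N : ℝ) / F * ((40 * y + 40 * (3 * d + 3) * l) / D) := by
            rw [hBDF]
            field_simp
        _ ≤ (N : ℝ) / F * (3 * l) := by
            apply mul_le_mul_of_nonneg_left _ (by positivity)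
            rw [div_le_iff₀ hDp]
            nlinarith
    have r0 : (0 : ℝ) ≤ r := Nat.cast_nonneg _
    have k2 : 2 * l + (y + (3 * d + 3) * l) + y + (4 * (r : ℝ) + 3) * (31 * l + 2 * y + 2 * X) ≤
        20 * ((r : ℝ) + 1) * X := by
      have h6 : (4 * (r : ℝ) + 3) * (31 * l + 2 * y + 2 * X) ≤ (4 * (r : ℝ) + 3) * (5 * X) :=
        mul_le_mul_of_nonneg_left (by linarith) (by linarith)
      nlinarith
    have k3 : 20 * ((r : ℝ) + 1) * X ≤ ((r : ℝ) + 1) * (8 * X * l) := by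
      have h6 : 0 ≤ ((r : ℝ) + 1) * X := by positivity
      nlinarith
    push_cast
    have e1 : ((m : ℝ) + 1) * (y + (3 * d + 3) * l) =
        m * (y + (3 * d + 3) * l) + (y + (3 * d + 3) * l) := by ring
    rw [e1]
    have e2 : ((r : ℝ) + 1) * (2 * (0 + 4) * X * l) + (N : ℝ) / F * ((0 + 3) * l) =
        ((r : ℝ) + 1) * (8 * X * l) + (N : ℝ) / F * (3 * l) := by ring
    rw [e2]
    linarith

end Pool.Agent.TGM
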