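import Pool.Agent.TGM.Defs
import Pool.Agent.RMS.St2

/-!
# Project TGM: statements, part 1 (tape machines as abstract computations with few transcripts)

THEOREM (`S_TAP`, part 2).  A randomised machine with random access to the graph, `2 ^ (s ^ ((1 - ε) / d))`
states and one unlimited tape of dimension `d` (cells of `s ^ (ε / 2)` bits, one step moves the head by one
cell) needs time `c s log s / log log s` to detect triangles.

IDEA.  As in project RMS: for a random shift of the rooms the room changes at most `m = 20 N / Z` times in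
`N` steps, with probability at least `19 / 20` (a run has at most `N` moves). The event that there are at most `m` changes
and the answer is `no` is for each seed and each shift an abstract computation (`HR.DS`) with few
transcripts: the transcript is the trace of the changes of the room (stopped at the change number `m + 1`)
and the transcript of the machine without tape which treats the rooms one after the other.

Every module proves one `S_XXX` as `theorem Pool.Agent.TGM.t_XXX : S_XXX`, or, if it uses other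
statements, `theorem t_XXX (h : S_YYY) ... : S_XXX` with exactly the hypotheses named in the doc string, in
this order.
-/

set_option autoImplicit false

open Finset Equiv MeasureTheory
open scoped Classical

namespace Pool.Agent.TGM

open Pool.Agent.TS (Query answer)
open Pool.Agent.TR (HasDegrees qans)
open Pool.Agent.HR (DS)
open Pool.Agent.PPS (SS Op)
open Pool.Agent.RMS (Cf TM Cell Dir act mvo rmap box Tra Vld rm S_SHF S_TRU S_OWN S_AVD)

/-- LOC2 (uses `RMS.S_TRU`, `RMS.S_OWN`).  As `RMS.S_LOC` (file Pool/Agent/RMS/LOC.lean) for `j = 0`, with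
two additional facts on the machine `own`: the bits read at once are none or those read by `R` in some
situation, and it never uses its stack.
Proof.  Copy Pool/Agent/RMS/LOC.lean; the additional facts hold by the definition of `own`. -/
def S_LOC2 : Prop := ∀ (P V Γ L D A O : Type) [Zero L] [Fintype V] [Fintype Γ] [Fintype O]
  (R : TM P V Γ L D) (ac : D → L → L) (e : L ≃ A × O) (τ : ℕ → Option (V × L))
  (T K len : ℕ) (w : V), Vld e τ → (∀ x, ∑ t ∈ range T, R.bits ac x t ≤ K) →
  ((range T).image (rm e τ)).card ≤ len →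
  ∃ (V' : Type) (_ : Fintype V') (R' : SS P V' Unit) (acc : V' → Prop) (T' : ℕ), T' ≤ len * T ∧
    Fintype.card V' ≤ 1 + Fintype.card V * Fintype.card O * Fintype.card Γ ^ Fintype.card O *
      (K + 1) ∧
    (∀ t v, R'.rd t v = ∅ ∨ ∃ t' v' a', R'.rd t v = R.rd t' v' a') ∧
    (∀ t v x, ∃ v', R'.op t v x = Op.stay v') ∧
    (∀ x, ∑ t ∈ range T', (R'.rd t (R'.conf x t).1).card ≤ K) ∧
    ∀ x, acc (R'.conf x T').1 ↔ Tra R ac e τ x T ∧ (R.conf ac x T).v = w

/-- UDS.  The union of abstract computations, one of which is right.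
Proof.  `X' = Σ i, X i`; `ix z` = the unique `i` with `A i ((Y i).tr z)`, `Y'.tr z = ⟨ix z, (Y (ix z)).tr z⟩`,
`Y'.hit z = (Y (ix z)).hit z`, `Y'.tg = univ.sigma fun i => (Y i).tg`. `cl`: let `Y'.tr z = Y'.tr z'`, so
`ix z = ix z' = i` and `(Y i).tr z = (Y i).tr z'`; `(Y i).cl` gives `(Y i).tr (mix sd z z') = (Y i).tr z`, so
`A i` holds for `mix sd z z'` and `ix (mix sd z z') = i`. -/
def S_UDS : Prop := ∀ (K U ι : Type) [Fintype K] [Fintype U] [DecidableEq K] [DecidableEq U]
  [Fintype ι] (r ℓ N C : ℕ) (X : ι → Type) (Y : ∀ i, DS K U (X i) r) (A : ∀ i, X i → Prop),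
  (∀ z, ∃! i, A i ((Y i).tr z)) → (∀ i z j, ((Y i).hit z j).card ≤ ℓ) →
  (∀ i z, ∑ j, ((Y i).hit z j).card ≤ N) → (∀ i, (Y i).tg.card ≤ C) →
  ∃ (X' : Type) (Y' : DS K U X' r) (ix : X' → ι), (∀ z, A (ix (Y'.tr z)) ((Y (ix (Y'.tr z))).tr z)) ∧
    (∀ z j, (Y'.hit z j).card ≤ ℓ) ∧ (∀ z, ∑ j, (Y'.hit z j).card ≤ N) ∧
    Y'.tg.card ≤ Fintype.card ι * C

/-- PRT.  The traces, stopped at the change number `m + 1`.
Proof.  Compare Pool/Agent/RMS/IDX.lean. `ι` = the triples `(T', f, w)`, `T' ≤ N`,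
`f : Fin N → Option (V × B)` with at most `m + 1` values `≠ none`, `w : V`, such that `τ (t + 1) = f t` (for
`t < N`, otherwise `none`) is `Vld`, `f t = none` for `t ≥ T'`, and either (good) `T' = N` and `f` has at most
`m` values `≠ none`, or (bad) `f` has exactly `m + 1` values `≠ none` and `f (T' - 1) ≠ none`, `T' ≥ 1`.
Let `x` be given. If the room changes at most `m` times before `N` then exactly the good triple of its trace
and its final state fits (a bad one would give `m + 1` changes); otherwise let `T'` be the time of the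
change number `m + 1`; exactly the bad triple with this `T'`, the trace up to `T'` and the state at time
`T'` fits. The number of the changes before `T'` is the number of the values `≠ none`, by `Tra`. -/
def S_PRT : Prop := ∀ (P V Γ L D A O : Type) [Zero L] [Fintype V] (R : TM P V Γ L D)
  (ac : D → L → L) (e : L ≃ A × O) (N m : ℕ) (B : Finset L),
  (∀ x, ∀ t ≤ N, (R.conf ac x t).p ∈ B) →
  ∃ (ι : Type) (_ : Fintype ι) (Tm : ι → ℕ) (τ : ι → ℕ → Option (V × L)) (w : ι → V)
    (good : ι → Prop),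
    Fintype.card ι ≤ (N + 1) * ((N + 1) * Fintype.card V * B.card + 1) ^ (m + 1) * Fintype.card V ∧
    (∀ i, Tm i ≤ N ∧ Vld e (τ i) ∧ ((range (Tm i)).image (rm e (τ i))).card ≤ m + 2 ∧
      (good i → Tm i = N)) ∧
    ∀ x, (∃! i, Tra R ac e (τ i) x (Tm i) ∧ (R.conf ac x (Tm i)).v = w i) ∧
      ∀ i, Tra R ac e (τ i) x (Tm i) ∧ (R.conf ac x (Tm i)).v = w i →
        (good i ↔ ∑ t ∈ range N, R.chg ac e x t ≤ m)

/-- the bound for the number of the transcripts -/
def cnt (v γ o b u N m r : ℕ) : ℕ :=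
  (N + 1) * ((N + 1) * v * b + 1) ^ (m + 1) * v *
    (100 * (N + 1) ^ 2 * (((m + 2) * N + 1) * (1 + v * o * γ ^ o * (N * u + 1)) + 1) ^ 2) ^ (r + 2)

/-- CVT (uses `RSA.S_DS`: import Pool.Agent.RSA.Stmts).  A machine without tape which asks questions, as an
abstract computation.
Proof.  Let `M` be the `SDM` with `Q = Fin (T' + 1) × V'`, `A = Γ = Λ = Unit`, start `(0, R'.start)`; in the
state `(n, v)`: if `n < T'` and `R'.rd n v = ∅` then `act = push () (n + 1, v')`, where
`R'.op n v (fun _ => false) = Op.stay v'` (the input does not matter, `R'.loc`); otherwise `act = step`; if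
`n < T'` and `R'.rd n v ≠ ∅`, `R'.rd n v = row q`, the step asks `q` and after the answer `w` goes to
`(n + 1, v')` with `R'.op n v x_w = Op.stay v'`, where `x_w` is an input which agrees with `xin z` on `row q` if
`qans z q = w`: `x_w (κ, u, u') = true` iff `(κ, u, u')` is the element of `row q` given by `w`; if `n = T'` the
step asks nothing and changes nothing. `rd = none`, nothing is written, so `cnt = 0` and `F = 0`.
Invariant: after some operations the state is `(n, (R'.conf (xin z) n).1)` and the number of the steps is the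
number of the `t < n` with nonempty `rd` (if `n < T'`), at most `N`. So if `steps = N` and `act = step` then
`n = T'` (a further nonempty read at `n < T'` would give more than `N`); and such an operation number
exists: after `n = T'` the machine makes idle steps until `steps = N`. Apply `S_DS` with `b = false`,
`F = 0`, and forget the first component of `st`. -/
def S_CVT : Prop := ∀ (K U V' : Type) [Fintype K] [Fintype U] [DecidableEq K] [DecidableEq U]
  [Fintype V'] (R' : SS (K × U × U) V' Unit) (T' N ℓ r : ℕ), 0 < ℓ → N < ℓ * r →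
  (∀ t v, R'.rd t v = ∅ ∨ ∃ q, R'.rd t v = row q) → (∀ t v x, ∃ v', R'.op t v x = Op.stay v') →
  (∀ z, ((range T').filter fun t => (R'.rd t (R'.conf (xin z) t).1).Nonempty).card ≤ N) →
  ∃ (X : Type) (Y : DS K U X r) (st : X → Option V'),
    (∀ z, st (Y.tr z) = some (R'.conf (xin z) T').1) ∧
    (∀ z j, (Y.hit z j).card ≤ 2 * ℓ + 1) ∧ (∀ z, ∑ j, (Y.hit z j).card ≤ N) ∧
    Y.tg.card ≤ (100 * (N + 1) ^ 2 * ((T' + 1) * Fintype.card V' + 1) ^ 2) ^ (r + 2)

/-- DST (uses `S_LOC2`, `S_UDS`, `S_PRT`, `S_CVT`).  A deterministic machine with a tape as an abstract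
computation with few transcripts.
Proof.  For `i : ι` (PRT) let `R' i` be the machine of LOC2 for `τ i`, `T = Tm i`, `K = N * card U`,
`len = m + 2`, `w i` (a step reads at most `card U` bits: a row is an image of `univ : Finset U`), and `Y i` the
computation of CVT for it, `T' ≤ (m + 2) * N`, `A i x` iff `st x = some v` with `acc i v`. A nonempty `rd` is a
row, so it has exactly `card U` elements (the image is injective) and the number of the nonempty ones is
at most `N` (`card U > 0` if there is one). UDS; `g x = good (ix x)`, `st x = w (ix x)`: if `g` then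
`Tm = N`, so `w` is the state at time `N`. -/
def S_DST : Prop := ∀ (K U V Γ L D A O : Type) [Fintype K] [Fintype U] [DecidableEq K]
  [DecidableEq U] [Zero L] [Fintype V] [Fintype Γ] [Fintype O] (R : TM (K × U × U) V Γ L D)
  (ac : D → L → L) (e : L ≃ A × O) (B : Finset L) (N m ℓ r : ℕ),
  (∀ t v a, R.rd t v a = ∅ ∨ ∃ q, R.rd t v a = row q) →
  (∀ x, ∀ t ≤ N, (R.conf ac x t).p ∈ B) → 0 < ℓ → N < ℓ * r →
  ∃ (X : Type) (Y : DS K U X r) (g : X → Prop) (st : X → V),
    (∀ z, g (Y.tr z) ↔ ∑ t ∈ range N, R.chg ac e (xin z) t ≤ m) ∧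
    (∀ z, g (Y.tr z) → st (Y.tr z) = (R.conf ac (xin z) N).v) ∧
    (∀ z j, (Y.hit z j).card ≤ 2 * ℓ + 1) ∧ (∀ z, ∑ j, (Y.hit z j).card ≤ N) ∧
    Y.tg.card ≤ cnt (Fintype.card V) (Fintype.card Γ) (Fintype.card O) B.card (Fintype.card U) N m r

/-- ENT.  The deterministic machine of a seed and the randomised machine.
Proof.  (1) by the definition of `dtm`. (2) `rans (xin z) k = some (qans z k)` (the `v` is unique), so
`(tq ..).bind (rans (xin z)) = (tq ..).map (qans z)` and the condition of `op` holds with `z`; for the chosen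
`z'` the answer is the same by `QEnc`. Induction on `t`; if the machine has answered then `op = (q, a, none)`
and `Function.update c p (c p) = c`. -/
def S_ENT : Prop := ∀ (n : ℕ) (Q Γ L D Ω K U : Type) [Zero L] [Fintype U]
  (M : TMachine n Q Γ L D Ω) (ac : D → L → L) (ω : Ω) (Gr : (K → Perm U) → SimpleGraph (Fin n))
  (tq : Query n → Option (K × Bool × U)), QEnc Gr tq →
  (∀ t q a, (dtm M ω Gr tq).rd t q a = ∅ ∨ ∃ k, (dtm M ω Gr tq).rd t q a = row k) ∧
  ∀ z t, (dtm M ω Gr tq).conf ac (xin z) t = M.run ac ω (Gr z) t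

/-- the probability of the answer `no triangle` at time `N` with at most `m` changes of the room, for a
random shift of the rooms -/
noncomputable def prN {n d : ℕ} {Q Γ Ω : Type} [MeasurableSpace Ω]
    (M : TMachine n Q Γ (Cell d) (Dir d) Ω) (μ : Measure Ω) (N m Z : ℕ) (hZ : 0 < Z)
    (G : SimpleGraph (Fin n)) : ℝ :=
  (∑ o ∈ range Z, μ.real {ω | M.out act ω G N = some false ∧
    M.chs act (rmap d Z hZ o) ω G N ≤ m}) / Z

/-- RNT (uses `RMS.S_SHF`).  Probabilities.
Proof.  (1) The state and the position at each time are random variables with countably many values, and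
the set depends only on those of the times `≤ N`. (2) `{out = none at N}` is decreasing in `N`, so
`N μ {out = none at N} ≤ ∑ t < N, μ {out = none at t} ≤ T ≤ N / 20`; compare `prob_free` in
Pool/Agent/Lib_helper21/TR (the answer is stable): so `μ {out = some false at N} ≥ 2 / 3 - 1 / 20` if there is no
triangle. For each seed the sum over `o < Z` of the number of the changes in the first `N` steps is at
most `N` (SHF (1): a step changes the room for at most one `o`), so at most `N / (m + 1) ≤ Z / 20` shifts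
have more than `m` changes; the sum over `o` of `μ {more than m changes}` is at most `Z / 20`. In total
`prN ≥ 2 / 3 - 1 / 20 - 1 / 20`. (3) The answer `no` is wrong: probability at most `1 / 3`. -/
def S_RNT : Prop := ∀ (n d : ℕ) (Q Γ Ω : Type) [Fintype Q] [MeasurableSpace Ω] (μ : Measure Ω)
  [IsProbabilityMeasure μ] (M : TMachine n Q Γ (Cell d) (Dir d) Ω) (G : SimpleGraph (Fin n))
  (T : ℝ) (N m Z : ℕ) (hZ : 0 < Z), 0 < N → 20 * T ≤ N → 20 * N ≤ (m + 1) * Z →
  (∀ t q, MeasurableSet {ω | (M.run act ω G t).v = q}) →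
  (∀ t p, MeasurableSet {ω | (M.run act ω G t).p = p}) →
  2 / 3 ≤ μ.real {ω | ∃ t b, M.out act ω G t = some b ∧ (b = true ↔ ¬ G.CliqueFree 3)} →
  (∀ k : ℕ, ∑ t ∈ range k, μ.real {ω | M.out act ω G t = none} ≤ T) →
  (∀ o, MeasurableSet {ω | M.out act ω G N = some false ∧
    M.chs act (rmap d Z hZ o) ω G N ≤ m}) ∧
  (G.CliqueFree 3 → 1 / 2 ≤ prN M μ N m Z hZ G) ∧
  (¬ G.CliqueFree 3 → prN M μ N m Z hZ G ≤ 1 / 3)

/-- TNU.  The numbers.
Proof.  `l = log s`, `y = s ^ ((1 - ε) / d)`, `Z = ⌊s ^ ((1 - 3 ε / 4) / d)⌋₊` (at least half of the power),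
`m = 20 N / Z` (natural division), so `20 N ≤ (m + 1) Z`, `m + 1 ≤ 20 N / Z + 1`. For large `s` (`log 2 ≤ 1`):
`log ((N + 1) v (2 N + 1) ^ d + 1) ≤ y + (3 d + 4) l`; `20 N / Z * (y + (3 d + 4) l) ≤
N / s ^ (ε / (8 d)) * (3 l)`, since `(1 - ε) / d < (1 - 7 ε / 8) / d`; the logarithm of
`((m + 2) N + 1) (1 + v Z ^ d γ ^ (Z ^ d) (N u + 1)) + 1` is at most
`y + Z ^ d s ^ (ε / 2) + (d + 12) l ≤ s ^ (1 - ε / 4) + y + (d + 12) l`; the rest is at most
`(4 r + 3) (5 + 4 l + 2 s ^ (1 - ε / 4) + 2 y + 2 (d + 12) l) + 2 y + (3 d + 6) l ≤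
(r + 1) (8 s ^ (1 - ε / 4) l)`. Choose `s1` before `v`, `γ`, `u`, `N`, `r`. (`pw` in Pool/Agent/RMS/Pw.lean:
`C N ^ a (log N) ^ j ≤ N ^ b` for `a < b` and large `N`.) -/
def S_TNU : Prop := ∀ (d : ℕ) (ε : ℝ), 1 ≤ d → 0 < ε → ε < 1 → ∃ s1 : ℕ, ∀ s ≥ s1,
  ∃ Z : ℕ, 0 < Z ∧ ∀ v γ u N r : ℕ, 1 ≤ v → 1 ≤ γ → ((v : ℝ) ≤ 2 ^ ((s : ℝ) ^ ((1 - ε) / d))) →
  ((γ : ℝ) ≤ 2 ^ ((s : ℝ) ^ (ε / 2))) → u ≤ s → N + 1 ≤ s ^ 2 → 0 < r →
  ∃ m : ℕ, 20 * N ≤ (m + 1) * Z ∧
    Real.log (cnt v γ (Z ^ d) ((2 * N + 1) ^ d) u N m (4 * r + 1)) ≤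
      ((r : ℝ) + 1) * (2 * (((0 : ℕ) : ℝ) + 4) * (s : ℝ) ^ (1 - ε / 4) * Real.log s) +
        (N : ℝ) / (s : ℝ) ^ (ε / (8 * d)) * ((((0 : ℕ) : ℝ) + 3) * Real.log s)

/-- TGF (uses `RMS.S_SHF`, `RMS.S_AVD`, `S_DST`, `S_ENT`, `S_RNT`, `S_TNU`).
Proof.  Let `r`, `ℓ` be given, `N = r * ℓ`; `Z`, `m` from TNU (for `v = card Q`, `γ = card Γ`, `u = s`: `cnt` is
monotone in `u`); `p = prN M μ N m Z`, `C = cnt .. s ..`, so `1 ≤ C`. RNT gives the conditions for `p`. Let `K`,
`U`, `Gr`, `tq` be given, and `a`, `c` as in `Hull`. For each seed `ω` and shift `o` the event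
`E z : out at N for Gr z is some false and chs ≤ m` is in `Comp`: DST for `R = dtm M ω Gr tq`,
`e = rmap d Z hZ o`, `B = box d N` (AVD (1), SHF (3), (4)), with `(ℓ - 1) / 2` and `4 * r + 1` (as in the proof of
`RSA.t_COMB`, Pool/Agent/RSA/Comb.lean: `N < (ℓ - 1) / 2 * (4 r + 1)`, `2 ((ℓ - 1) / 2) + 1 ≤ ℓ`),
`Acc x = g x ∧ M.output (st x) = some false`; by ENT `conf` is `run`, so `∑ chg = chs`. So
`∑ z, a z * [E z] ≤ c` for all `ω`, `o`; integrate over `ω` (the sets are measurable by RNT (1)) and take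
the mean over `o`. -/
def S_TGF : Prop := ∀ (d : ℕ) (ε : ℝ), 1 ≤ d → 0 < ε → ε < 1 → ∃ s1 : ℕ, ∀ s ≥ s1,
  ∀ (n : ℕ) (δ : Fin n → ℕ) (Q Γ Ω : Type) [Fintype Q] [Fintype Γ] [MeasurableSpace Ω]
    (μ : Measure Ω) [IsProbabilityMeasure μ] (M : TMachine n Q Γ (Cell d) (Dir d) Ω) (T : ℝ),
    ((Fintype.card Q : ℝ) ≤ 2 ^ ((s : ℝ) ^ ((1 - ε) / d))) →
    ((Fintype.card Γ : ℝ) ≤ 2 ^ ((s : ℝ) ^ (ε / 2))) →
    M.DetectsTriangles act μ δ → M.ExpectedTimeLE act μ δ T →
    GFast 0 s ((s : ℝ) ^ (ε / (8 * d))) ((s : ℝ) ^ (1 - ε / 4)) n δ T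

end Pool.Agent.TGM
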