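import Pool.Agent.TGM.St1
import Pool.Agent.RSA.Stmts

/-!
# Project TGM: statements, part 2 (abstract randomised algorithms are slow; the main theorem)

The modules ABC, ABP, ABZ, ABM are adapted copies of the modules COMB, PAR, SIZ, MAIN0 of project RSA.
-/

set_option autoImplicit false
set_option linter.unusedVariables false

open Finset Equiv MeasureTheory
open scoped Classical

namespace Pool.Agent.TGM

open Pool.Agent.TS Pool.Agent.TR Pool.Agent.HR Pool.Agent.HM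
open Pool.Agent.RAC (Simp Sparse HS ES Cond K0 S_GOOD S_TFC S_HM S_CHO S_EXP)
open Pool.Agent.RMS (Cell Dir act)

/-- ABC (uses `RAC.S_GOOD`, `RAC.S_TFC`).  No fast abstract algorithm, under numerical conditions.
Proof.  Copy the proof of `RSA.t_COMB` (Pool/Agent/RSA/Comb.lean). The event `EV z` is replaced by the number
`p z`: `ho`: `∑ z ∈ TF, p z ≥ 1 / 2 * TF.card`, `hs1`: `∑ z ∈ OT, p z ≤ 1 / 3 * OT.card`. The deterministic
inequality is proved as there for every event `E` in `Comp .. (4 * r + 1) ℓ (r * ℓ) C`, with `Acc` in place of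
the condition on `st`: `c1 * ∑ z ∈ TF, [E z] - c2 ≤ ∑ z ∈ OT, [E z]`; `Hull` with
`a z = c1 * [z ∈ TF] - [z ∈ OT]`, `c = c2` gives `c1 * ∑ z ∈ TF, p z - c2 ≤ ∑ z ∈ OT, p z` (in place of
`havg`). The rest is unchanged. -/
def S_ABC : Prop :=
  ∀ (J B U C CU : Type) [Fintype J] [Fintype B] [AddCommGroup U] [Fintype U] [Fintype C]
    [Fintype CU] [DecidableEq J] [DecidableEq B] [DecidableEq U] [DecidableEq C]
    (σ : C → Perm B) (M0 : ℕ) (γU : CU → U) (p : (Bool × (J × B) → Perm U) → ℝ)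
    (lamU : ℝ) (L r k g V fF h0 Cn : ℕ) (Lam : ℝ),
    Simp σ → Sparse σ M0 → Function.Injective γU →
    (∀ z, TFree (ES σ (adjU γU)) (toInp z).1 (toInp z).2 → 1 / 2 ≤ p z) →
    (∀ z, ¬ TFree (ES σ (adjU γU)) (toInp z).1 (toInp z).2 → p z ≤ 1 / 3) →
    Hull (Comp (4 * r + 1) L (r * L) Cn) p →
    0 ≤ lamU → (∀ ψ : AddChar U ℂ, ψ ≠ 0 → ‖∑ k, ψ (γU k)‖ ≤ lamU) →
    3 ≤ L → 0 < r → 0 < k → 2 ≤ g → k ≤ g + 2 → (g + 2) ^ k ≤ V → 0 < fF → 0 < Lam →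
    M0 * L ≤ Fintype.card B →
    0 < Fintype.card U → 0 < Fintype.card J → 0 < Fintype.card B → 0 < Fintype.card C →
    0 < Fintype.card CU →
    120 * (Fintype.card CU : ℝ) ≤ Fintype.card U → 60 * (lamU * Lam) ≤ Fintype.card CU →
    2 * ((Fintype.card C : ℝ) * ((r * L : ℕ) : ℝ) / k) + 12 * ((r * L : ℕ) : ℝ) ≤
      1 / 40 * (Fintype.card J * Fintype.card B * Fintype.card C * Fintype.card U) →
    (2 * (Fintype.card C : ℝ) + 8 * k * ((g : ℝ) + 2) ^ k) / V +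
      (2 + 8 * (2 * ((Fintype.card J : ℝ) * Fintype.card B) * Fintype.card U) / V +
        2 * k * L) / fF ≤ 1 / 40 →
    40 * ((Fintype.card C : ℝ) * Fintype.card CU) ≤ Fintype.card U →
    480 * (V : ℝ) ^ 2 * ((h0 + 2 * ((Fintype.card J : ℝ) * Fintype.card B) * Fintype.card U /
        Real.sqrt Lam) + HR.nDesc fF V Cn (2 * (Fintype.card J * Fintype.card B) * Fintype.card U) *
        (fF * (2 ^ fF * ((Real.exp 1 / Real.sqrt Lam) ^ h0 *
          (Fintype.card U : ℝ) ^ (2 * (Fintype.card C * Fintype.card CU) *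
            (Fintype.card J * Fintype.card B)))))) ≤
      1 / 20 * (Fintype.card J * Fintype.card B * Fintype.card C * Fintype.card U) →
    False

/-- QEN.  The encoding of permutations as graphs.  Proof.  `TS.answer_eq` and `TR.map_conv`. -/
def S_QEN : Prop :=
  ∀ (J B U : Type) (t d w pad : ℕ) (eJ : J ≃ Fin t) (eB : B ≃ Fin d) (eU : U ≃ Fin w)
    (E : B × U → B × U → Prop),
    QEnc (fun z : Bool × (J × B) → Perm U => theGraph eJ eB eU pad E (toInp z))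
      (fun q => (tr eJ eB eU pad q).map qconv)

/-- ABP (uses `S_ABC`, `RAC.S_HM`, `S_QEN`).  The lower bound for given parameters.
Proof.  Copy the proof of `RSA.t_PAR` (Pool/Agent/RSA/Par.lean) with `κ` in place of `kap κ`. By
contradiction let `T < k N / 12800`. With the numbers `L`, `r` of that proof `20 T < k N / 640 ≤ r L` and
`r L + 1 ≤ s ^ 2`, so `GFast` gives `p`, `Cn` with the bound for `log Cn` (in place of `S_CX`), for
`Gr z = theGraph (Equiv.refl (Fin t)) eB eU pad (ES ..) (toInp z)` (QEN; `card U = q ^ 3 ≤ s`; `Fintype` and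
`DecidableEq` instances by `Subsingleton.elim` if necessary). The conditions of ABC for `p (Gr z)`:
`TS.cliqueFree_iff`. -/
def S_ABP : Prop :=
  ∀ (κ s : ℕ) (φ S0 : ℝ) (gg D q m t pad d w : ℕ) [NeZero D] [Fact q.Prime]
    (σ : ZMod D → Perm (Fin m × ZMod D)) (eB : (Fin m × ZMod D) ≃ Fin d)
    (eU : (Blk q 0 × Inn q) ≃ Fin w) (dg' : Fin (t * w + (d * w + (d * w + pad))) → ℕ) (T : ℝ),
    Simp σ → Sparse σ (3 * D ^ 4) → 3 ≤ s → 0 < m → 0 < t → Cond κ s φ S0 gg D q (m * D) →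
    t * (m * D) * q ^ 3 ≤ s →
    (∀ z : Inp (Fin t) (Fin m × ZMod D) (Blk q 0 × Inn q),
      HasDegrees (theGraph (Equiv.refl (Fin t)) eB eU pad
        (ES σ (adjU (gen : Gen q → Blk q 0 × Inn q))) z) dg') →
    GFast κ s φ S0 (t * w + (d * w + (d * w + pad))) dg' T →
    ((gg : ℝ) + 2) * (t * (m * D) * (q : ℝ) ^ 3) / 12800 ≤ T

/-- ABZ (uses `S_ABP`, `RAC.S_EXP`, `RAC.S_TFC`).  Graphs of every size.
Proof.  Copy the proof of `RSA.t_SIZ` (Pool/Agent/RSA/Siz.lean). -/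
def S_ABZ : Prop :=
  ∀ (κ s : ℕ) (φ S0 : ℝ) (gg D q m : ℕ) [Fact q.Prime], 3 ≤ s → 0 < m → 0 < D →
    Cond κ s φ S0 gg D q (m * D) → 16 * ((m * D) * D * q ^ 5) ≤ s →
    ∃ (n : ℕ) (δ : Fin n → ℕ), 2 * n + ∑ v, δ v = 2 * s ∧
      ∀ T : ℝ, GFast κ s φ S0 n δ T → ((gg : ℝ) + 2) * s / 204800 ≤ T

/-- ABM (uses `S_ABZ`, `RAC.S_CHO`).  Abstract randomised algorithms are slow.
Proof.  Copy the proof of `RSA.t_MAIN0` (Pool/Agent/RSA/Main0.lean). -/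
def S_ABM : Prop :=
  ∀ (κ : ℕ) (ε : ℝ), 0 < ε → ε ≤ 1 → ∃ c : ℝ, 0 < c ∧ ∃ s₀ : ℕ, ∀ (s : ℕ) (φ : ℝ), s₀ ≤ s →
    (s₀ : ℝ) ≤ φ → ∃ (n : ℕ) (δ : Fin n → ℕ), 2 * n + ∑ v, δ v = 2 * s ∧
      ∀ T : ℝ, GFast κ s φ ((s : ℝ) ^ (1 - ε)) n δ T →
        c * s * (min (Real.log s) (Real.log φ) / Real.log (min (Real.log s) (Real.log φ))) ≤ T

/-- TAP (uses `S_ABM`, `S_TGF`).  MAIN THEOREM.
Proof.  ABM for `κ = 0`, `ε / 4` gives `c1`, `s₀`; `φ = s ^ (ε / (8 d)) ≥ s₀` for large `s`;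
`m = min (log s) (log φ) = ε / (8 d) log s`, and `m / log m ≥ ε / (8 d) (log s / log log s)` as
`0 < log m ≤ log log s` for large `s`. `c = c1 ε / (8 d)`. TGF gives `GFast`. -/
def S_TAP : Prop := ∀ (d : ℕ) (ε : ℝ), 1 ≤ d → 0 < ε → ε < 1 → ∃ c : ℝ, 0 < c ∧ ∃ s₀ : ℕ,
  ∀ s : ℕ, s₀ ≤ s → ∃ (n : ℕ) (δ : Fin n → ℕ), 2 * n + ∑ v, δ v = 2 * s ∧
    ∀ (Q Γ Ω : Type) [Fintype Q] [Fintype Γ] [MeasurableSpace Ω] (μ : Measure Ω)
      [IsProbabilityMeasure μ] (M : TMachine n Q Γ (Cell d) (Dir d) Ω) (T : ℝ),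
      ((Fintype.card Q : ℝ) ≤ 2 ^ ((s : ℝ) ^ ((1 - ε) / d))) →
      ((Fintype.card Γ : ℝ) ≤ 2 ^ ((s : ℝ) ^ (ε / 2))) →
      M.DetectsTriangles act μ δ → M.ExpectedTimeLE act μ δ T →
      c * s * (Real.log s / Real.log (Real.log s)) ≤ T

end Pool.Agent.TGM
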