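import Pool.Agent.TGM.St2

/-!
# Project TGM, module ABC: no fast abstract algorithm, under numerical conditions

Adapted copy of `RSA.t_COMB` (Pool/Agent/RSA/Comb.lean), with `Hull` in place of the average over seeds.
-/

set_option autoImplicit false
set_option linter.unusedSectionVars false
set_option linter.unusedVariables false

open MeasureTheory

namespace Pool.Agent.TGM

open Finset Equiv Pool.Agent.TS Pool.Agent.TR Pool.Agent.HR Pool.Agent.HM
open Pool.Agent.RAC (Simp Sparse HS ES S_GOOD S_TFC)

theorem t_ABC (h1 : S_GOOD) (h2 : S_TFC) : S_ABC := by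
  intro J B U C CU _ _ _ _ _ _ _ _ _ _ σ M0 γU p lamU L r k g V fF h0 Cn Λ hσ hsp hγU hp1 hp2 hHull
    hlamU hψU hL hr hk hg hkg hV hfF hΛ hM0L hU hJ hB hC hCU hκ hlΛ hbad hw h2D hmain
  classical
  set H := HS J σ hσ with hH
  set adj := adjU γU with hadj
  have hcU : (0 : ℝ) < Fintype.card U := by exact_mod_cast hU
  have hcJ : (0 : ℝ) < Fintype.card J := by exact_mod_cast hJ
  have hcC : (0 : ℝ) < Fintype.card C := by exact_mod_cast hC
  have hcCU : (0 : ℝ) < Fintype.card CU := by exact_mod_cast hCU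
  have hcB : (0 : ℝ) < Fintype.card B := by exact_mod_cast hB
  set κ₀ : ℝ := (Fintype.card CU : ℝ) / Fintype.card U with hκ₀
  have hκ₀0 : 0 < κ₀ := by positivity
  have cloc : (Fintype.card (((J × B) × C) × U) : ℝ) =
      Fintype.card J * Fintype.card B * Fintype.card C * Fintype.card U := by
    rw [Fintype.card_prod, Fintype.card_prod, Fintype.card_prod]; push_cast; ring
  have cKU : Fintype.card ((Bool × (J × B)) × U) =
      2 * (Fintype.card J * Fintype.card B) * Fintype.card U := by
    rw [Fintype.card_prod, Fintype.card_prod, Fintype.card_prod, Fintype.card_bool]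
  obtain ⟨htri, htf, -, hky⟩ := h2 J B U C σ hσ adj (Fintype.card CU)
    (fun y => by convert adjU_col γU y) (fun x => by convert adjU_row γU x)
  rw [← hH] at htri htf hky
  -- the sets
  set TF := (Finset.univ.filter fun z : Bool × (J × B) → Perm U =>
    ∀ ℓ : ((J × B) × C) × U, ¬ tri H adj z ℓ) with hTF
  set OT := (Finset.univ.filter fun z : Bool × (J × B) → Perm U =>
    ∃ ℓ : ((J × B) × C) × U, only H adj z ℓ) with hOT
  -- counting of triangle-free inputs
  have htf := htf (by
    have : (2 * (Fintype.card C * Fintype.card CU) : ℝ) ≤ Fintype.card U := by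
      have : (0 : ℝ) ≤ Fintype.card C * Fintype.card CU := by positivity
      linarith
    exact_mod_cast this)
  rw [Fintype.card_prod J B] at htf
  have hTF0 : (0 : ℝ) < TF.card := by
    have h1 : 0 < Fintype.card (Bool × (J × B) → Perm U) := Fintype.card_pos
    have h2 := h1.trans_le htf
    exact_mod_cast Nat.pos_of_mul_pos_left h2
  have htfR : (Fintype.card (Bool × (J × B) → Perm U) : ℝ) ≤
      (Fintype.card U : ℝ) ^ (2 * (Fintype.card C * Fintype.card CU) *
        (Fintype.card J * Fintype.card B)) * TF.card := by exact_mod_cast htf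
  set N := r * L with hN
  have hN0 : 0 < N := Nat.mul_pos hr (by omega)
  have ho : (1 / 2 : ℝ) * TF.card ≤ ∑ z ∈ TF, p z := by
    calc (1 / 2 : ℝ) * TF.card = ∑ _z ∈ TF, (1 / 2 : ℝ) := by
          rw [Finset.sum_const, nsmul_eq_mul]; ring
      _ ≤ _ := by
          refine Finset.sum_le_sum fun z hz => hp1 z ?_
          exact (htri z).2 (Finset.mem_filter.1 hz).2
  set c1 : ℝ := κ₀ * ((1 - 3 * (1 / 60)) * ((1 - (1 / 40 + 1 / 40)) *
    Fintype.card (((J × B) × C) × U))) with hc1
  set c2 : ℝ := κ₀ * (8 / (1 / 60) * (V : ℝ) ^ 2 * ((TF.card : ℝ) * (h0 +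
        Fintype.card ((Bool × (J × B)) × U) / Real.sqrt Λ) +
        HR.nDesc fF V Cn (Fintype.card ((Bool × (J × B)) × U)) *
        (fF * (2 ^ fF * ((Real.exp 1 / Real.sqrt Λ) ^ h0 *
          Fintype.card (Bool × (J × B) → Perm U)))))) with hc2
  -- the deterministic inequality for every event
  have hdetE : ∀ E : (Bool × (J × B) → Perm U) → Prop, Comp (4 * r + 1) L (r * L) Cn E →
      c1 * (∑ z ∈ TF, if E z then (1 : ℝ) else 0) - c2 ≤ ∑ z ∈ OT, if E z then (1 : ℝ) else 0 := by
    intro E hE
    obtain ⟨X, Y, Acc, hhit, hsum, htg, hacc⟩ := hE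
    have h := det_ineq' (E := (J × B) × C) H Y Acc adj k fF hV κ₀ lamU Λ
      (1 / 60) (1 / 40 + 1 / 40)
      (by norm_num) (by norm_num) hκ₀0.le (by
        rw [hκ₀, div_le_iff₀ hcU]; linarith) hlamU hΛ hU
      (fun a b _ => by
        have := adjU_mix γU hγU lamU hlamU hψU a b
        rw [← hadj, ← hκ₀] at this
        convert this)
      (by
        rw [hκ₀, div_le_iff₀ hcU]
        have : 1 / 60 * ((Fintype.card CU : ℝ) / Fintype.card U) * Fintype.card U =
            1 / 60 * Fintype.card CU := by field_simp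
        rw [this]
        linarith) h0
      (fun z => h1 J B U C X σ hσ M0 (4 * r + 1) Y L N k g V fF (1 / 40) (1 / 40) hsp hM0L hk hV hg hkg hfF
          (by norm_num) (by norm_num) (by norm_num) (by rw [cloc]; exact hbad)
          (by rw [cKU]; push_cast; exact hw) z (hhit z) (hsum z))
      (TF.filter fun z => Acc (Y.tr z))
      (OT.filter fun z => Acc (Y.tr z))
      TF (by
        intro z
        simp only [hTF, Finset.mem_filter, Finset.mem_univ, true_and, and_comm]) (by
        intro z
        simp only [hTF, Finset.mem_filter, Finset.mem_univ, true_and]) (by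
        intro z
        simp only [hOT, Finset.mem_filter, Finset.mem_univ, true_and, and_comm])
    have hc : ∀ S : Finset (Bool × (J × B) → Perm U),
        ((S.filter fun z => Acc (Y.tr z)).card : ℝ) = ∑ z ∈ S, if E z then (1 : ℝ) else 0 := by
      intro S
      rw [← Finset.sum_boole]
      refine Finset.sum_congr rfl fun z _ => ?_
      by_cases hz : E z
      · rw [if_pos hz, if_pos ((hacc z).1 hz)]
      · rw [if_neg hz, if_neg fun h => hz ((hacc z).2 h)]
    rw [hc TF, hc OT] at h
    have hnd : HR.nDesc fF V Y.tg.card (Fintype.card ((Bool × (J × B)) × U)) ≤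
        HR.nDesc fF V Cn (Fintype.card ((Bool × (J × B)) × U)) := by
      unfold HR.nDesc
      apply mul_le_mul_of_nonneg_right _ (by positivity)
      exact_mod_cast htg
    refine le_trans ?_ h
    rw [hc1, hc2]
    have h5 : 8 / (1 / 60) * (V : ℝ) ^ 2 * ((TF.card : ℝ) * (h0 +
        Fintype.card ((Bool × (J × B)) × U) / Real.sqrt Λ) +
        HR.nDesc fF V Y.tg.card (Fintype.card ((Bool × (J × B)) × U)) *
        (fF * (2 ^ fF * ((Real.exp 1 / Real.sqrt Λ) ^ h0 *
          Fintype.card (Bool × (J × B) → Perm U))))) ≤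
        8 / (1 / 60) * (V : ℝ) ^ 2 * ((TF.card : ℝ) * (h0 +
        Fintype.card ((Bool × (J × B)) × U) / Real.sqrt Λ) +
        HR.nDesc fF V Cn (Fintype.card ((Bool × (J × B)) × U)) *
        (fF * (2 ^ fF * ((Real.exp 1 / Real.sqrt Λ) ^ h0 *
          Fintype.card (Bool × (J × B) → Perm U))))) := by
      apply mul_le_mul_of_nonneg_left _ (by positivity)
      apply add_le_add le_rfl
      exact mul_le_mul_of_nonneg_right hnd (by positivity)
    have h6 := mul_le_mul_of_nonneg_left h5 hκ₀0.le
    linarith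
  -- the hull
  have hpos : ∀ (S : Finset (Bool × (J × B) → Perm U)) (f : (Bool × (J × B) → Perm U) → ℝ),
      ∑ z, (if z ∈ S then (1 : ℝ) else 0) * f z = ∑ z ∈ S, f z := by
    intro S f
    rw [← Finset.sum_filter_add_sum_filter_not Finset.univ (fun z => z ∈ S)]
    have e1 : ∑ z ∈ Finset.univ.filter (fun z => z ∈ S), (if z ∈ S then (1 : ℝ) else 0) * f z
        = ∑ z ∈ S, f z := by
      rw [Finset.filter_mem_eq_inter, Finset.univ_inter]
      exact Finset.sum_congr rfl fun z hz => by rw [if_pos hz, one_mul]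
    have e2 : ∑ z ∈ Finset.univ.filter (fun z => ¬ z ∈ S), (if z ∈ S then (1 : ℝ) else 0) * f z
        = 0 := Finset.sum_eq_zero fun z hz => by
      rw [if_neg (Finset.mem_filter.1 hz).2, zero_mul]
    rw [e1, e2, add_zero]
  have havg : c1 * (∑ z ∈ TF, p z) - c2 ≤ ∑ z ∈ OT, p z := by
    have h := hHull (fun z => c1 * (if z ∈ TF then (1 : ℝ) else 0) - (if z ∈ OT then (1 : ℝ) else 0))
      c2 (by
        intro E hE
        have h3 := hdetE E hE
        have e : ∑ z, (c1 * (if z ∈ TF then (1 : ℝ) else 0) - (if z ∈ OT then (1 : ℝ) else 0)) *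
            (if E z then (1 : ℝ) else 0) = c1 * (∑ z ∈ TF, if E z then (1 : ℝ) else 0) -
              ∑ z ∈ OT, if E z then (1 : ℝ) else 0 := by
          rw [← hpos TF, ← hpos OT, Finset.mul_sum, ← Finset.sum_sub_distrib]
          exact Finset.sum_congr rfl fun z _ => by ring
        have e' : ∑ z, (c1 * (if z ∈ TF then (1 : ℝ) else 0) - (if z ∈ OT then (1 : ℝ) else 0)) *
            (if E z then (1 : ℝ) else 0) ≤ c2 := by
          rw [e]; linarith
        convert e')
    have e : ∑ z, (c1 * (if z ∈ TF then (1 : ℝ) else 0) - (if z ∈ OT then (1 : ℝ) else 0)) * p z =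
        c1 * (∑ z ∈ TF, p z) - ∑ z ∈ OT, p z := by
      rw [← hpos TF, ← hpos OT, Finset.mul_sum, ← Finset.sum_sub_distrib]
      exact Finset.sum_congr rfl fun z _ => by ring
    rw [e] at h
    linarith
  -- bounds for the probabilities
  have hp1' : ∀ z ∈ OT, p z ≤ 1 / 3 := by
    intro z hz
    obtain ⟨ℓ, hℓ⟩ := (Finset.mem_filter.1 hz).2
    exact hp2 z fun hfree => (htri z).1 hfree ℓ hℓ.1
  have hs1 : ∑ z ∈ OT, p z ≤ (1 / 3 : ℝ) * OT.card := by
    calc _ ≤ ∑ _z ∈ OT, (1 / 3 : ℝ) := Finset.sum_le_sum hp1'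
      _ = _ := by rw [Finset.sum_const, nsmul_eq_mul]; ring
  -- the number of inputs with one triangle
  have hot : (OT.card : ℝ) * ((Fintype.card U : ℝ) - 2 * (Fintype.card C * Fintype.card CU)) ≤
      (TF.card : ℝ) * Fintype.card (((J × B) × C) × U) * Fintype.card CU := by
    have := ot_bound H adj (Fintype.card C) (Fintype.card CU) (fun κ => by convert hky κ)
      (fun y => by convert adjU_col γU y) (fun x => by convert adjU_row γU x)
    convert this
  have hot2 : (OT.card : ℝ) ≤ 20 / 19 * (κ₀ * Fintype.card (((J × B) × C) × U) * TF.card) := by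
    have h1 : (OT.card : ℝ) * (19 / 20 * Fintype.card U) ≤
        (TF.card : ℝ) * Fintype.card (((J × B) × C) × U) * Fintype.card CU := by
      refine le_trans ?_ hot
      apply mul_le_mul_of_nonneg_left _ (by positivity)
      linarith
    have h2 : (OT.card : ℝ) * (19 / 20 * Fintype.card U) ≤
        (20 / 19 * (κ₀ * Fintype.card (((J × B) × C) × U) * TF.card)) *
          (19 / 20 * Fintype.card U) := by
      refine h1.trans (le_of_eq ?_)
      rw [hκ₀]
      field_simp
    exact le_of_mul_le_mul_right h2 (by positivity)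
  -- the error term
  have hloc0 : (0 : ℝ) < Fintype.card (((J × B) × C) × U) := by rw [cloc]; positivity
  have hc2le : c2 ≤ κ₀ * (1 / 20 * Fintype.card (((J × B) × C) × U) * TF.card) := by
    rw [hc2]
    apply mul_le_mul_of_nonneg_left _ hκ₀0.le
    have hnd : 0 ≤ HR.nDesc fF V Cn (Fintype.card ((Bool × (J × B)) × U)) := by
      unfold HR.nDesc; positivity
    calc 8 / (1 / 60) * (V : ℝ) ^ 2 * ((TF.card : ℝ) * (h0 +
        Fintype.card ((Bool × (J × B)) × U) / Real.sqrt Λ) +
        HR.nDesc fF V Cn (Fintype.card ((Bool × (J × B)) × U)) *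
        (fF * (2 ^ fF * ((Real.exp 1 / Real.sqrt Λ) ^ h0 *
          Fintype.card (Bool × (J × B) → Perm U)))))
        ≤ 8 / (1 / 60) * (V : ℝ) ^ 2 * ((TF.card : ℝ) * (h0 +
        Fintype.card ((Bool × (J × B)) × U) / Real.sqrt Λ) +
        HR.nDesc fF V Cn (Fintype.card ((Bool × (J × B)) × U)) *
        (fF * (2 ^ fF * ((Real.exp 1 / Real.sqrt Λ) ^ h0 *
          ((Fintype.card U : ℝ) ^ (2 * (Fintype.card C * Fintype.card CU) *
        (Fintype.card J * Fintype.card B)) * TF.card))))) := by
          gcongr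
      _ = TF.card * (480 * (V : ℝ) ^ 2 * ((h0 + 2 * ((Fintype.card J : ℝ) * Fintype.card B) *
          Fintype.card U / Real.sqrt Λ) + HR.nDesc fF V Cn
          (2 * (Fintype.card J * Fintype.card B) * Fintype.card U) *
        (fF * (2 ^ fF * ((Real.exp 1 / Real.sqrt Λ) ^ h0 *
          (Fintype.card U : ℝ) ^ (2 * (Fintype.card C * Fintype.card CU) *
            (Fintype.card J * Fintype.card B))))))) := by
          rw [cKU]
          push_cast
          ring
      _ ≤ TF.card * (1 / 20 * (Fintype.card J * Fintype.card B * Fintype.card C *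
          Fintype.card U)) := mul_le_mul_of_nonneg_left hmain hTF0.le
      _ = _ := by rw [cloc]; ring
  -- conclusion
  have hX : 0 < κ₀ * Fintype.card (((J × B) × C) × U) * TF.card := by positivity
  have hc10 : 0 ≤ c1 := by
    rw [hc1]
    apply mul_nonneg hκ₀0.le
    apply mul_nonneg (by norm_num)
    apply mul_nonneg (by norm_num) hloc0.le
  have e3 := mul_le_mul_of_nonneg_left ho hc10
  have e4 : c1 * (1 / 2 * TF.card) = (361 / 400 * (1 / 2)) *
      (κ₀ * Fintype.card (((J × B) × C) × U) * TF.card) := by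
    rw [hc1]; ring
  rw [e4] at e3
  have e5 : κ₀ * (1 / 20 * (Fintype.card (((J × B) × C) × U) : ℝ) * TF.card) =
      1 / 20 * (κ₀ * Fintype.card (((J × B) × C) × U) * TF.card) := by ring
  rw [e5] at hc2le
  nlinarith

end Pool.Agent.TGM
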