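import Pool.Agent.TGM.St2

/-!
# TGM_ABM: abstract randomised algorithms are slow
-/

set_option autoImplicit false

namespace Pool.Agent.TGM

open Finset Equiv
open Pool.Agent.RAC (S_CHO)

theorem t_ABM (h1 : S_ABZ) (h2 : S_CHO) : S_ABM := by
  intro κ ε he0 he1
  obtain ⟨c, hc, s₀, hs3, h⟩ := h2 κ ε he0 he1
  refine ⟨c / 204800, by positivity, s₀, ?_⟩
  intro s φ hs hφ
  obtain ⟨gg, D, q, m, hq, hm, hD, hC, hsz, hk⟩ := h s φ hs hφ
  have : Fact q.Prime := ⟨hq⟩
  obtain ⟨n, δ, hnδ, hslow⟩ := h1 κ s φ ((s : ℝ) ^ (1 - ε)) gg D q m (hs3.trans hs) hm hD hC hsz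
  refine ⟨n, δ, hnδ, ?_⟩
  intro T hT0
  have hT := hslow T hT0
  refine le_trans ?_ hT
  have hs0 : (0 : ℝ) ≤ s := Nat.cast_nonneg s
  calc c / 204800 * s * (min (Real.log s) (Real.log φ) /
          Real.log (min (Real.log s) (Real.log φ)))
      = s / 204800 * (c * (min (Real.log s) (Real.log φ) /
          Real.log (min (Real.log s) (Real.log φ)))) := by ring
    _ ≤ s / 204800 * ((gg : ℝ) + 2) := mul_le_mul_of_nonneg_left hk (by positivity)
    _ = ((gg : ℝ) + 2) * s / 204800 := by ring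

end Pool.Agent.TGM
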