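import Pool.Agent.TGM.St1
import Pool.Agent.RSA.Stmts

/-!
# Project TGM, module CVT (helper66): a machine without tape as an abstract computation
-/

set_option autoImplicit false

open Finset Equiv MeasureTheory
open scoped Classical

namespace Pool.Agent.TGM

open Pool.Agent.TS (Query answer)
open Pool.Agent.TR (HasDegrees qans)
open Pool.Agent.HR (DS)
open Pool.Agent.PPS (SS Op)
open Pool.Agent.RSA (SDM Act Conf)

namespace CVTAux

variable {K U V' : Type} [Fintype U]

/-- the next index -/
def sc {T' : ℕ} (n : Fin (T' + 1)) : Fin (T' + 1) :=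
  if h : (n : ℕ) < T' then ⟨n + 1, by omega⟩ else n

/-- an input for which the question `q` has the answer `w` -/
noncomputable def yin (q : K × Bool × U) (w : U) : K × U × U → Bool :=
  fun p => decide (p = if q.2.1 = true then (q.1, q.2.2, w) else (q.1, w, q.2.2))

theorem xin_yin (z : K → Perm U) (q : K × Bool × U) (p : K × U × U) (hp : p ∈ row q) :
    xin z p = yin q (qans z q) p := by
  obtain ⟨κ, b, u⟩ := q
  rw [row, mem_image] at hp
  obtain ⟨v, _, rfl⟩ := hp
  cases b
  · simp only [xin, yin, qans, Bool.false_eq_true, if_false, Prod.mk.injEq, true_and, and_true]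
    congr 1
    exact propext (by rw [Equiv.eq_symm_apply])
  · simp only [xin, yin, qans, if_true, Prod.mk.injEq, true_and]
    congr 1
    exact propext eq_comm

/-- the question of the bits read -/
noncomputable def qq (R' : SS (K × U × U) V' Unit) (n : ℕ) (v : V') : Option (K × Bool × U) :=
  if h : ∃ q, R'.rd n v = row q ∧ (R'.rd n v).Nonempty then some h.choose else none

theorem qq_none {R' : SS (K × U × U) V' Unit} {n : ℕ} {v : V'} (h : R'.rd n v = ∅) :
    qq R' n v = none := by
  rw [qq, dif_neg]
  rintro ⟨q, -, hq⟩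
  rw [h] at hq
  exact Finset.not_nonempty_empty hq

theorem qq_some {R' : SS (K × U × U) V' Unit} {n : ℕ} {v : V'}
    (h : R'.rd n v = ∅ ∨ ∃ q, R'.rd n v = row q) (hne : R'.rd n v ≠ ∅) :
    ∃ q, qq R' n v = some q ∧ R'.rd n v = row q := by
  have h1 : ∃ q, R'.rd n v = row q ∧ (R'.rd n v).Nonempty := by
    obtain ⟨q, hq⟩ := h.resolve_left hne
    exact ⟨q, hq, Finset.nonempty_iff_ne_empty.2 hne⟩
  exact ⟨h1.choose, by rw [qq, dif_pos h1], h1.choose_spec.1⟩

/-- the machine -/
noncomputable def mach (R' : SS (K × U × U) V' Unit) (nx : ℕ → V' → (K × U × U → Bool) → V')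
    (T' : ℕ) : SDM K U (Fin (T' + 1) × V') Unit Unit Unit where
  start := (0, R'.start)
  init := fun _ => ()
  act _ s := if (s.1 : ℕ) < T' ∧ R'.rd s.1 s.2 = ∅ then
    Act.push () (sc s.1, nx s.1 s.2 fun _ => false) else Act.step
  rd _ _ := none
  ask _ s _ := if (s.1 : ℕ) < T' then qq R' s.1 s.2 else none
  step _ s _ a := if (s.1 : ℕ) < T' then
    (match qq R' s.1 s.2, a with
      | some q, some w => (sc s.1, nx s.1 s.2 (yin q w))
      | _, _ => s, none) else (s, none)

section

variable (R' : SS (K × U × U) V' Unit) (nx : ℕ → V' → (K × U × U → Bool) → V') (T' : ℕ)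
  (hrd : ∀ t v, R'.rd t v = ∅ ∨ ∃ q, R'.rd t v = row q)
  (hnx : ∀ t v x, R'.op t v x = Op.stay (nx t v x)) (z : K → Perm U)

include hnx in
theorem conf_succ (x : K × U × U → Bool) (t : ℕ) :
    (R'.conf x (t + 1)).1 = nx t (R'.conf x t).1 x := by
  rw [SS.conf, hnx]
  rfl

include hnx in
theorem nx_loc (t : ℕ) (v : V') (x y : K × U × U → Bool) (h : ∀ p ∈ R'.rd t v, x p = y p) :
    nx t v x = nx t v y := by
  have h1 := R'.loc t v x y h
  rw [hnx, hnx] at h1
  exact Op.stay.inj h1

/-- the number of the questions before time `n` -/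
noncomputable def cn (n : ℕ) : ℕ :=
  ((range n).filter fun t => (R'.rd t (R'.conf (xin z) t).1).Nonempty).card

include hrd hnx in
theorem run_lt : ∀ n (hn : n ≤ T'),
    ((mach R' nx T').run z n).state = (⟨n, by omega⟩, (R'.conf (xin z) n).1) ∧
    ((mach R' nx T').run z n).steps = cn R' z n := by
  intro n
  induction n with
  | zero =>
    intro _
    exact ⟨rfl, rfl⟩
  | succ n ih =>
    intro hn
    obtain ⟨h1, h2⟩ := ih (by omega)
    have hlt : n < T' := by omega
    have hsc : sc (⟨n, by omega⟩ : Fin (T' + 1)) = ⟨n + 1, by omega⟩ := by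
      rw [sc, dif_pos hlt]
    have hcn : cn R' z (n + 1) = cn R' z n +
        if (R'.rd n (R'.conf (xin z) n).1).Nonempty then 1 else 0 := by
      rw [cn, cn, range_add_one, filter_insert]
      split_ifs
      · rw [card_insert_of_notMem]
        simp
      · rfl
    by_cases he : R'.rd n (R'.conf (xin z) n).1 = ∅
    · have ha : (mach R' nx T').act ((mach R' nx T').run z n).steps
          ((mach R' nx T').run z n).state =
          Act.push () (⟨n + 1, by omega⟩, nx n (R'.conf (xin z) n).1 fun _ => false) := by
        rw [h1]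
        show (if n < T' ∧ R'.rd n (R'.conf (xin z) n).1 = ∅ then _ else _) = _
        rw [if_pos ⟨hlt, he⟩, hsc]
      have hr : (mach R' nx T').run z (n + 1) = ⟨((mach R' nx T').run z n).steps,
          (⟨n + 1, by omega⟩, nx n (R'.conf (xin z) n).1 fun _ => false),
          ((mach R' nx T').run z n).reg, () :: ((mach R' nx T').run z n).stack⟩ := by
        show (mach R' nx T').op z ((mach R' nx T').run z n) = _
        unfold SDM.op
        rw [ha]
      rw [hr, hcn, he, if_neg Finset.not_nonempty_empty, add_zero]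
      refine ⟨?_, h2⟩
      rw [conf_succ R' nx hnx]
      refine Prod.ext rfl ?_
      refine nx_loc R' nx hnx n _ _ _ fun p hp => ?_
      rw [he] at hp
      exact absurd hp (Finset.notMem_empty p)
    · obtain ⟨q, hq1, hq2⟩ := qq_some (hrd n (R'.conf (xin z) n).1) he
      have ha : (mach R' nx T').act ((mach R' nx T').run z n).steps
          ((mach R' nx T').run z n).state = Act.step := by
        rw [h1]
        show (if n < T' ∧ R'.rd n (R'.conf (xin z) n).1 = ∅ then _ else _) = _
        rw [if_neg fun h => he h.2]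
      have hqu : (mach R' nx T').qu ((mach R' nx T').run z n) = some q := by
        unfold SDM.qu
        rw [h1]
        show (if n < T' then qq R' n (R'.conf (xin z) n).1 else none) = _
        rw [if_pos hlt, hq1]
      have hmv : (mach R' nx T').mv z ((mach R' nx T').run z n) =
          ((⟨n + 1, by omega⟩, nx n (R'.conf (xin z) n).1 (yin q (qans z q))), none) := by
        unfold SDM.mv
        rw [hqu, h1]
        show (if n < T' then ((match qq R' n (R'.conf (xin z) n).1, some (qans z q) with
          | some q, some w => (sc (⟨n, _⟩ : Fin (T' + 1)),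
              nx n (R'.conf (xin z) n).1 (yin q w))
          | _, _ => _), none) else _) = _
        rw [if_pos hlt, hq1, hsc]
      have hr : ((mach R' nx T').run z (n + 1)).state =
          (⟨n + 1, by omega⟩, nx n (R'.conf (xin z) n).1 (yin q (qans z q))) ∧
          ((mach R' nx T').run z (n + 1)).steps = ((mach R' nx T').run z n).steps + 1 := by
        have h3 : (mach R' nx T').run z (n + 1) =
          (mach R' nx T').op z ((mach R' nx T').run z n) := rfl
        rw [h3]
        unfold SDM.op
        rw [ha]
        exact ⟨congrArg Prod.fst hmv, rfl⟩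
      rw [hr.1, hr.2, hcn, if_pos (Finset.nonempty_iff_ne_empty.2 he), h2]
      refine ⟨?_, rfl⟩
      rw [conf_succ R' nx hnx]
      refine Prod.ext rfl ?_
      refine nx_loc R' nx hnx n _ _ _ fun p hp => ?_
      rw [hq2] at hp
      exact (xin_yin z q p hp).symm

theorem act_last (N : ℕ) (v : V') :
    (mach R' nx T').act N (⟨T', by omega⟩, v) = Act.step := by
  show (if T' < T' ∧ _ then _ else _) = _
  rw [if_neg fun h => lt_irrefl _ h.1]

include hrd hnx in
theorem run_ge (i : ℕ) :
    ((mach R' nx T').run z (T' + i)).state = (⟨T', by omega⟩, (R'.conf (xin z) T').1) ∧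
    ((mach R' nx T').run z (T' + i)).steps = cn R' z T' + i := by
  induction i with
  | zero => exact run_lt R' nx T' hrd hnx z T' le_rfl
  | succ i ih =>
    obtain ⟨h1, h2⟩ := ih
    have ha : (mach R' nx T').act ((mach R' nx T').run z (T' + i)).steps
        ((mach R' nx T').run z (T' + i)).state = Act.step := by
      rw [h1]
      show (if T' < T' ∧ _ then _ else _) = _
      rw [if_neg fun h => lt_irrefl _ h.1]
    have hmv : ((mach R' nx T').mv z ((mach R' nx T').run z (T' + i))).1 =
        (⟨T', by omega⟩, (R'.conf (xin z) T').1) := by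
      unfold SDM.mv
      rw [h1]
      show (if T' < T' then _ else ((_, _), none) : (Fin (T' + 1) × V') × Option (Unit × Unit)).1 = _
      rw [if_neg (lt_irrefl _)]
    have h3 : (mach R' nx T').run z (T' + (i + 1)) =
      (mach R' nx T').op z ((mach R' nx T').run z (T' + i)) := rfl
    rw [h3]
    unfold SDM.op
    rw [ha]
    refine ⟨hmv, ?_⟩
    show _ + 1 = _
    rw [h2]
    ring

end

theorem filter_zero (S : Finset ℕ) (p : ℕ → Prop) (inst : DecidablePred p) (h : ∀ j, ¬ p j) :
    (@Finset.filter ℕ p inst S).card ≤ 0 :=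
  (Finset.card_eq_zero.2 (Finset.filter_false_of_mem fun j _ => h j)).le

end CVTAux

open CVTAux in
/-- CVT: a machine without tape which asks questions, as an abstract computation. -/
theorem t_CVT (hDS : RSA.S_DS) : S_CVT := by
  intro K U V' _ _ _ _ _ R' T' N ℓ r hℓ hN hrd hop hcn
  choose nx hnx using hop
  obtain ⟨X, Y, st, h1, h2, h3, h4⟩ := hDS K U (Fin (T' + 1) × V') Unit Unit Unit
    (mach R' nx T') false ℓ r N 0 hℓ hN (fun z k => by
      refine filter_zero _ _ _ ?_
      rintro j ⟨a, ha, -⟩
      unfold SDM.acs at ha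
      split at ha
      · exact absurd ha (by simp [mach])
      · exact absurd ha (by simp))
  refine ⟨X, Y, fun x => (st x).map Prod.snd, fun z => ?_, h2, h3, ?_⟩
  · have hc : cn R' z T' ≤ N := hcn z
    obtain ⟨h5, h6⟩ := run_ge R' nx T' hrd hnx z (N - cn R' z T')
    have h7 := (h1 z (⟨T', by omega⟩, (R'.conf (xin z) T').1)).2
      ⟨T' + (N - cn R' z T'), by rw [h6]; omega, h5, act_last R' nx T' N _⟩
    show (st (Y.tr z)).map Prod.snd = _
    rw [h7]
    rfl
  · rw [pow_zero, mul_one, Fintype.card_prod, Fintype.card_fin] at h4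
    exact h4

end Pool.Agent.TGM
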