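import Pool.Agent.TGM.St1

/-!
# Project TGM: a deterministic machine with a tape as an abstract computation with few transcripts
-/

set_option autoImplicit false

open Finset Equiv MeasureTheory
open scoped Classical

namespace Pool.Agent.TGM

open Pool.Agent.HR (DS)
open Pool.Agent.PPS (SS Op)
open Pool.Agent.RMS (TM Tra Vld rm)

namespace DST

theorem card_row {K U : Type} [Fintype U] (q : K × Bool × U) :
    (row q).card = Fintype.card U := by
  unfold row
  rw [Finset.card_image_of_injective, Finset.card_univ]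
  intro v v' h
  by_cases hq : q.2.1 = true
  · simpa [hq] using h
  · simpa [hq] using h

theorem card_le {K U : Type} [Fintype U] (s : Finset (K × U × U))
    (h : s = ∅ ∨ ∃ q, s = row q) : s.card ≤ Fintype.card U := by
  rcases h with h | ⟨q, h⟩
  · rw [h, Finset.card_empty]
    exact Nat.zero_le _
  · rw [h, card_row]

theorem filter_le {K U : Type} [Fintype U] (T N : ℕ) (s : ℕ → Finset (K × U × U))
    (h : ∀ t, s t = ∅ ∨ ∃ q, s t = row q) (hs : ∑ t ∈ range T, (s t).card ≤ N * Fintype.card U) :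
    ((range T).filter fun t => (s t).Nonempty).card ≤ N := by
  have key : ∀ t, (s t).Nonempty → (s t).card = Fintype.card U := fun t ht => by
    rcases h t with h' | ⟨q, h'⟩
    · rw [h'] at ht
      exact absurd ht Finset.not_nonempty_empty
    · rw [h', card_row]
  rcases Nat.eq_zero_or_pos (Fintype.card U) with hU | hU
  · have : ((range T).filter fun t => (s t).Nonempty) = ∅ := by
      refine Finset.filter_eq_empty_iff.2 fun t _ ht => ?_
      have h1 := key t ht
      rw [hU] at h1
      exact absurd (Finset.card_pos.2 ht) (by omega)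
    rw [this]
    exact Nat.zero_le _
  · have h1 : ((range T).filter fun t => (s t).Nonempty).card * Fintype.card U ≤
        ∑ t ∈ range T, (s t).card := by
      calc ((range T).filter fun t => (s t).Nonempty).card * Fintype.card U
          = ∑ t ∈ (range T).filter fun t => (s t).Nonempty, Fintype.card U := by
            rw [Finset.sum_const, smul_eq_mul]
        _ = ∑ t ∈ (range T).filter fun t => (s t).Nonempty, (s t).card :=
            Finset.sum_congr rfl fun t ht => (key t (Finset.mem_filter.1 ht).2).symm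
        _ ≤ _ := Finset.sum_le_sum_of_subset (Finset.filter_subset _ _)
    exact Nat.le_of_mul_le_mul_right (h1.trans hs) hU

end DST

open DST

theorem t_DST (h1 : S_LOC2) (h2 : S_UDS) (h3 : S_PRT) (h4 : S_CVT) : S_DST := by
  intro K U V Γ L D A O _ _ _ _ _ _ _ _ R ac e B N m ℓ r hrow hB hℓ hN
  obtain ⟨ι, iι, Tm, τ, w, good, hcard, hi, hx⟩ := h3 (K × U × U) V Γ L D A O R ac e N m B hB
  have hone : ∀ i, ∃ (X : Type) (Y : DS K U X r) (Ac : X → Prop),
      (∀ z, Ac (Y.tr z) ↔ Tra R ac e (τ i) (xin z) (Tm i) ∧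
        (R.conf ac (xin z) (Tm i)).v = w i) ∧
      (∀ z j, (Y.hit z j).card ≤ 2 * ℓ + 1) ∧ (∀ z, ∑ j, (Y.hit z j).card ≤ N) ∧
      Y.tg.card ≤ (100 * (N + 1) ^ 2 * (((m + 2) * N + 1) * (1 + Fintype.card V *
        Fintype.card O * Fintype.card Γ ^ Fintype.card O * (N * Fintype.card U + 1)) + 1) ^ 2) ^
          (r + 2) := by
    intro i
    obtain ⟨ht, hv, hr, -⟩ := hi i
    have hbits : ∀ x, ∑ t ∈ range (Tm i), R.bits ac x t ≤ N * Fintype.card U := fun x => by
      calc ∑ t ∈ range (Tm i), R.bits ac x t ≤ ∑ _t ∈ range (Tm i), Fintype.card U :=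
            Finset.sum_le_sum fun t _ => card_le _ (hrow _ _ _)
        _ = Tm i * Fintype.card U := by rw [Finset.sum_const, smul_eq_mul, Finset.card_range]
        _ ≤ _ := Nat.mul_le_mul_right _ ht
    obtain ⟨V', iV, R', acc, T', hT', hV', hrd, hop, hK, hacc⟩ :=
      h1 (K × U × U) V Γ L D A O R ac e (τ i) (Tm i) (N * Fintype.card U) (m + 2) (w i) hv hbits hr
    have hrd' : ∀ t v, R'.rd t v = ∅ ∨ ∃ q, R'.rd t v = row q := fun t v => by
      rcases hrd t v with h | ⟨t', v', a', h⟩
      · exact Or.inl h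
      · rw [h]
        exact hrow _ _ _
    obtain ⟨X, Y, st, hst, hh, hs, hc⟩ := h4 K U V' R' T' N ℓ r hℓ hN hrd' hop
      (fun z => filter_le T' N (fun t => R'.rd t (R'.conf (xin z) t).1) (fun t => hrd' _ _)
        (hK (xin z)))
    refine ⟨X, Y, fun x => ∃ v, st x = some v ∧ acc v, fun z => ?_, hh, hs, hc.trans ?_⟩
    · rw [← hacc (xin z)]
      constructor
      · rintro ⟨v, hv1, hv2⟩
        rw [hst z] at hv1
        rwa [Option.some.inj hv1]
      · intro h
        exact ⟨_, hst z, h⟩
    · have e1 : T' + 1 ≤ (m + 2) * N + 1 :=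
        Nat.succ_le_succ (hT'.trans (Nat.mul_le_mul_left _ ht))
      exact Nat.pow_le_pow_left (Nat.mul_le_mul_left _ (Nat.pow_le_pow_left
        (Nat.succ_le_succ (Nat.mul_le_mul e1 hV')) 2)) _
  choose X Y Ac hA hh hs hc using hone
  obtain ⟨X', Y', ix, hY, hh', hs', hc'⟩ := h2 K U ι r (2 * ℓ + 1) N _ X Y Ac
    (fun z => by
      obtain ⟨i, hi1, hi2⟩ := (hx (xin z)).1
      exact ⟨i, (hA i z).2 hi1, fun j hj => hi2 j ((hA j z).1 hj)⟩) hh hs hc
  refine ⟨X', Y', fun x => good (ix x), fun x => w (ix x), fun z => ?_, fun z hg => ?_, hh', hs',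
    hc'.trans ?_⟩
  · exact (hx (xin z)).2 _ ((hA _ z).1 (hY z))
  · have h5 := (hA _ z).1 (hY z)
    have h6 := (hi (ix (Y'.tr z))).2.2.2 hg
    rw [h6] at h5
    exact h5.2.symm
  · unfold cnt
    exact Nat.mul_le_mul_right _ hcard

end Pool.Agent.TGM
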