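import Pool.Agent.RMS.Own
import Pool.Agent.Lib_helper21.TR.Defs
import Pool.Agent.Lib_helper21.HR.Sys

/-!
# Project TGM: randomised machines with random access to a graph and one unlimited tape
-/

set_option autoImplicit false

open Finset Equiv MeasureTheory
open scoped Classical

namespace Pool.Agent.TGM

open Pool.Agent.TS (Query answer)
open Pool.Agent.TR (HasDegrees qans)
open Pool.Agent.HR (DS)
open Pool.Agent.RMS (Cf TM Cell Dir act mvo rmap)

/-! ## The machines -/

/-- A randomised, nonuniform machine with random access to a graph on `Fin n` and with one tape (cells `L`,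
moves `D`, letters `Γ`), with states in `Q` and random seeds in `Ω`. With seed `ω` it starts in the state
`start ω` with the head on the cell `0` and the contents `init ω` of the tape. At time `t` in state `q` with
the scanned letter `γ` it asks the question `ask ω t q γ` about the input graph (entry `k` of the adjacency
list of `v`, or whether `u` and `v` are adjacent); `a` being the answer, `next ω t q γ a` is the new state,
the letter written into the scanned cell and the move of the head, if any (arbitrary functions).
`output q = some b`: in the state `q` the machine stops with the answer `b` (`true`: there is a triangle). -/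
structure TMachine (n : ℕ) (Q Γ L D Ω : Type) where
  start : Ω → Q
  init : Ω → L → Γ
  ask : Ω → ℕ → Q → Γ → Query n
  next : Ω → ℕ → Q → Γ → Option (Fin n) → Q × Γ × Option D
  output : Q → Option Bool

variable {n : ℕ} {Q Γ L D Ω : Type}

/-- what the machine does in the configuration `S` at time `t` -/
noncomputable def TMachine.move (M : TMachine n Q Γ L D Ω) (ω : Ω) (G : SimpleGraph (Fin n)) (t : ℕ)
    (S : Cf Q L Γ) : Q × Γ × Option D :=
  M.next ω t S.v (S.c S.p) (answer G (M.ask ω t S.v (S.c S.p)))

/-- The configuration after `t` steps on the graph `G` with seed `ω` (the move `δ` leads from the cell `p` to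
`ac δ p`); a machine that has answered does not change it any more. -/
noncomputable def TMachine.run [Zero L] (M : TMachine n Q Γ L D Ω) (ac : D → L → L) (ω : Ω)
    (G : SimpleGraph (Fin n)) : ℕ → Cf Q L Γ
  | 0 => ⟨M.start ω, 0, M.init ω⟩
  | t + 1 =>
    if (M.output (M.run ac ω G t).v).isSome then M.run ac ω G t else
      ⟨(M.move ω G t (M.run ac ω G t)).1, mvo ac (M.move ω G t (M.run ac ω G t)).2.2
        (M.run ac ω G t).p, Function.update (M.run ac ω G t).c (M.run ac ω G t).p
        (M.move ω G t (M.run ac ω G t)).2.1⟩

/-- The answer given after `t` steps, if any. -/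
noncomputable def TMachine.out [Zero L] (M : TMachine n Q Γ L D Ω) (ac : D → L → L) (ω : Ω)
    (G : SimpleGraph (Fin n)) (t : ℕ) : Option Bool := M.output (M.run ac ω G t).v

/-- On every graph with degree sequence `δ` the machine answers correctly whether there is a
triangle with probability at least `2 / 3`, the seed being distributed according to `μ`. (First two
clauses: the state and the position of the head after `t` steps are random variables.) -/
def TMachine.DetectsTriangles [Zero L] [MeasurableSpace Ω] (M : TMachine n Q Γ L D Ω)
    (ac : D → L → L) (μ : Measure Ω) (δ : Fin n → ℕ) : Prop :=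
  ∀ G : SimpleGraph (Fin n), HasDegrees G δ →
    (∀ t q, MeasurableSet {ω | (M.run ac ω G t).v = q}) ∧
    (∀ t p, MeasurableSet {ω | (M.run ac ω G t).p = p}) ∧
    2 / 3 ≤ μ.real {ω | ∃ t b, M.out ac ω G t = some b ∧ (b = true ↔ ¬ G.CliqueFree 3)}

/-- The expected number of steps on every graph with degree sequence `δ` is at most `T`: the expected
number of steps made before time `m`, which is the sum over `t < m` of the probability that the
machine has not yet answered at time `t`, is at most `T` for every `m`. -/
def TMachine.ExpectedTimeLE [Zero L] [MeasurableSpace Ω] (M : TMachine n Q Γ L D Ω)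
    (ac : D → L → L) (μ : Measure Ω) (δ : Fin n → ℕ) (T : ℝ) : Prop :=
  ∀ G : SimpleGraph (Fin n), HasDegrees G δ → ∀ m : ℕ,
    ∑ t ∈ Finset.range m, μ.real {ω | M.out ac ω G t = none} ≤ T

/-- the number of the changes of the room (room map `e`) in the first `N` steps -/
noncomputable def TMachine.chs {A O : Type} [Zero L] (M : TMachine n Q Γ L D Ω) (ac : D → L → L)
    (e : L ≃ A × O) (ω : Ω) (G : SimpleGraph (Fin n)) (N : ℕ) : ℕ :=
  ((range N).filter fun t => (e (M.run ac ω G (t + 1)).p).1 ≠ (e (M.run ac ω G t).p).1).card

/-! ## Families of permutations as Boolean inputs -/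

variable {K U : Type}

/-- the Boolean input of a family of permutations: is `z κ u = v`? -/
noncomputable def xin (z : K → Perm U) : K × U × U → Bool := fun p => decide (z p.1 p.2.1 = p.2.2)

/-- the bits which belong to a question -/
noncomputable def row [Fintype U] (q : K × Bool × U) : Finset (K × U × U) :=
  univ.image fun v : U => if q.2.1 = true then (q.1, q.2.2, v) else (q.1, v, q.2.2)

/-- some `v` with `f v = true`, if there is one -/
noncomputable def pick (f : U → Bool) : Option U :=
  if h : ∃ v : U, f v = true then some h.choose else none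

/-- the answer to a question, from the bits -/
noncomputable def rans (x : K × U × U → Bool) (q : K × Bool × U) : Option U :=
  pick fun v => x (if q.2.1 = true then (q.1, q.2.2, v) else (q.1, v, q.2.2))

/-- A way to write families of permutations as graphs such that each question about the graph depends on
at most one question about the permutations. -/
def QEnc (Gr : (K → Perm U) → SimpleGraph (Fin n)) (tq : Query n → Option (K × Bool × U)) : Prop :=
  ∀ z z' q, (tq q).map (qans z) = (tq q).map (qans z') → answer (Gr z) q = answer (Gr z') q

/-- The deterministic machine of a seed, for families of permutations. -/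
noncomputable def dtm [Fintype U] (M : TMachine n Q Γ L D Ω) (ω : Ω)
    (Gr : (K → Perm U) → SimpleGraph (Fin n)) (tq : Query n → Option (K × Bool × U)) :
    TM (K × U × U) Q Γ L D where
  start := M.start ω
  init := M.init ω
  rd t q a := if (M.output q).isSome then ∅ else
    match tq (M.ask ω t q a) with
    | none => ∅
    | some k => row k
  op t q a x := if (M.output q).isSome then (q, a, none) else
    if h : ∃ z : K → Perm U, (tq (M.ask ω t q a)).map (qans z) = (tq (M.ask ω t q a)).bind (rans x)
    then M.next ω t q a (answer (Gr h.choose) (M.ask ω t q a)) else (q, a, none)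
  loc t q a x y h := by
    by_cases ho : (M.output q).isSome
    · simp only [if_pos ho]
    · simp only [if_neg ho] at h ⊢
      cases hk : tq (M.ask ω t q a) with
      | none => simp
      | some k =>
        rw [hk] at h
        have h1 : rans x k = rans y k := by
          unfold rans
          congr 1
          funext v
          exact h _ (Finset.mem_image.2 ⟨v, Finset.mem_univ _, rfl⟩)
        simp only [Option.bind_some, h1]

/-! ## Abstract computations -/

variable [Fintype K] [Fintype U] [DecidableEq K] [DecidableEq U]

/-- The event `E` is decided by an abstract computation with `r` components with at most `ℓ` coordinates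
each and at most `N` in total, and at most `C` transcripts. -/
def Comp (r ℓ N C : ℕ) (E : (K → Perm U) → Prop) : Prop :=
  ∃ (X : Type) (Y : DS K U X r) (Acc : X → Prop), (∀ z j, (Y.hit z j).card ≤ ℓ) ∧
    (∀ z, ∑ j, (Y.hit z j).card ≤ N) ∧ Y.tg.card ≤ C ∧ ∀ z, E z ↔ Acc (Y.tr z)

/-- `p` is in the closed convex hull of the indicator functions of the events in `𝒟`. -/
def Hull (𝒟 : ((K → Perm U) → Prop) → Prop) (p : (K → Perm U) → ℝ) : Prop :=
  ∀ (a : (K → Perm U) → ℝ) (c : ℝ),
    (∀ E, 𝒟 E → ∑ z, a z * (if E z then (1 : ℝ) else 0) ≤ c) → ∑ z, a z * p z ≤ c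

/-- An abstract randomised algorithm for graphs with the degree sequence `δ` which detects triangles in time
`T`; `κ`, `s`, `φ`, `S0` are the numbers in the bound for the number of the transcripts. -/
def GFast (κ s : ℕ) (φ S0 : ℝ) (n : ℕ) (δ : Fin n → ℕ) (T : ℝ) : Prop :=
  ∀ r ℓ : ℕ, 3 ≤ ℓ → 0 < r → 20 * T ≤ (r : ℝ) * ℓ → r * ℓ + 1 ≤ s ^ 2 →
    ∃ (p : SimpleGraph (Fin n) → ℝ) (C : ℕ),
      (∀ G, HasDegrees G δ → (G.CliqueFree 3 → 1 / 2 ≤ p G) ∧ (¬ G.CliqueFree 3 → p G ≤ 1 / 3)) ∧
      1 ≤ C ∧ Real.log C ≤ ((r : ℝ) + 1) * (2 * ((κ : ℝ) + 4) * S0 * Real.log s) +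
        ((r * ℓ : ℕ) : ℝ) / φ * (((κ : ℝ) + 3) * Real.log s) ∧
      ∀ (K U : Type) [Fintype K] [Fintype U] [DecidableEq K] [DecidableEq U]
        (Gr : (K → Perm U) → SimpleGraph (Fin n)) (tq : Query n → Option (K × Bool × U)),
        Fintype.card U ≤ s → QEnc Gr tq → (∀ z, HasDegrees (Gr z) δ) →
        Hull (Comp (4 * r + 1) ℓ (r * ℓ) C) fun z => p (Gr z)

end Pool.Agent.TGM
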