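import Pool.Agent.TGM.St1

/-!
# Project TGM: the deterministic machine of a seed and the randomised machine
-/

set_option autoImplicit false

open Finset Equiv MeasureTheory
open scoped Classical

namespace Pool.Agent.TGM

open Pool.Agent.TS (Query answer)
open Pool.Agent.TR (HasDegrees qans)
open Pool.Agent.RMS (Cf TM mvo)

theorem rans_xin {K U : Type} (z : K → Perm U) (k : K × Bool × U) :
    rans (xin z) k = some (qans z k) := by
  have key : ∀ (g : U → Bool) (a : U), (∀ v, g v = true ↔ v = a) → pick g = some a := by
    intro g a hg
    have hex : ∃ v, g v = true := ⟨a, (hg a).2 rfl⟩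
    unfold pick
    rw [dif_pos hex, Option.some.injEq]
    exact (hg _).1 hex.choose_spec
  unfold rans
  refine key _ _ fun v => ?_
  by_cases hb : k.2.1 = true
  · simp only [hb, if_true, xin, qans, decide_eq_true_eq]
    exact eq_comm
  · simp only [hb, xin, qans, decide_eq_true_eq]
    rw [if_neg (by simp)]
    constructor
    · intro h
      rw [← h]
      simp
    · rintro rfl
      simp

theorem t_ENT : S_ENT := by
  intro n Q Γ L D Ω K U _ _ M ac ω Gr tq hq
  refine ⟨fun t q a => ?_, fun z t => ?_⟩
  · unfold dtm
    simp only []
    split_ifs with h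
    · exact Or.inl rfl
    · cases hk : tq (M.ask ω t q a) with
      | none => exact Or.inl rfl
      | some k => exact Or.inr ⟨k, rfl⟩
  · induction t with
    | zero => rfl
    | succ t ih =>
      have e1 : (dtm M ω Gr tq).conf ac (xin z) (t + 1) =
          ⟨((dtm M ω Gr tq).op t ((dtm M ω Gr tq).conf ac (xin z) t).v
              (((dtm M ω Gr tq).conf ac (xin z) t).c ((dtm M ω Gr tq).conf ac (xin z) t).p)
              (xin z)).1,
            mvo ac ((dtm M ω Gr tq).op t ((dtm M ω Gr tq).conf ac (xin z) t).v
              (((dtm M ω Gr tq).conf ac (xin z) t).c ((dtm M ω Gr tq).conf ac (xin z) t).p)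
              (xin z)).2.2 ((dtm M ω Gr tq).conf ac (xin z) t).p,
            Function.update ((dtm M ω Gr tq).conf ac (xin z) t).c
              ((dtm M ω Gr tq).conf ac (xin z) t).p
              ((dtm M ω Gr tq).op t ((dtm M ω Gr tq).conf ac (xin z) t).v
              (((dtm M ω Gr tq).conf ac (xin z) t).c ((dtm M ω Gr tq).conf ac (xin z) t).p)
              (xin z)).2.1⟩ := rfl
      have e2 : M.run ac ω (Gr z) (t + 1) =
          if (M.output (M.run ac ω (Gr z) t).v).isSome then M.run ac ω (Gr z) t else
          ⟨(M.move ω (Gr z) t (M.run ac ω (Gr z) t)).1,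
            mvo ac (M.move ω (Gr z) t (M.run ac ω (Gr z) t)).2.2 (M.run ac ω (Gr z) t).p,
            Function.update (M.run ac ω (Gr z) t).c (M.run ac ω (Gr z) t).p
            (M.move ω (Gr z) t (M.run ac ω (Gr z) t)).2.1⟩ := rfl
      rw [e1, e2, ih]
      generalize M.run ac ω (Gr z) t = S
      have hop : (dtm M ω Gr tq).op t S.v (S.c S.p) (xin z) =
          if (M.output S.v).isSome then (S.v, S.c S.p, none) else M.move ω (Gr z) t S := by
        unfold dtm
        simp only []
        by_cases ho : (M.output S.v).isSome
        · rw [if_pos ho, if_pos ho]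
        · rw [if_neg ho, if_neg ho]
          have hb : ∀ o : Option (K × Bool × U), o.bind (rans (xin z)) = o.map (qans z) := by
            intro o
            cases o with
            | none => rfl
            | some k => simp [rans_xin]
          rw [hb]
          have hex : ∃ z' : K → Perm U, (tq (M.ask ω t S.v (S.c S.p))).map (qans z') =
              (tq (M.ask ω t S.v (S.c S.p))).map (qans z) := ⟨z, rfl⟩
          rw [dif_pos hex]
          unfold TMachine.move
          rw [hq _ _ _ hex.choose_spec]
      rw [hop]
      by_cases ho : (M.output S.v).isSome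
      · rw [if_pos ho, if_pos ho]
        simp [mvo]
      · rw [if_neg ho, if_neg ho]

end Pool.Agent.TGM
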