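import Pool.Agent.TGM.St1
import Pool.Agent.RMS.LOC

/-!
# Project TGM, module LOC2: the event of a trace is decided by a machine without tape

As `RMS.S_LOC` for `j = 0`, with two additional facts on the machine `own`.
-/

set_option autoImplicit false

open Finset
open scoped Classical

namespace Pool.Agent.TGM

open Pool.Agent.PPS (SS Op)
open Pool.Agent.RMS

open Pool.Agent.RMS.MLOC in
theorem t_LOC2 (hTRU : S_TRU) (hOWN : S_OWN) : S_LOC2 := by
  intro P V Γ L D A O _ _ _ _ R ac e τ T K len w hV hK hlen
  set es : Fin 0 → L ≃ A × O := Fin.elim0 with hes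
  set s0 : Finset A := (range T).image (rm e τ) with hs0
  set as : ℕ → A := enu s0 (e 0).1 with has
  letI : Fintype (Ow V O Γ 0 0 K) := Fintype.ofEquiv _ owE.symm
  refine ⟨Option (Ow V O Γ 0 0 K), inferInstance, own R ac e τ T w es 0 K as,
    fun S => (T = 0 → w = R.start) ∧ S ≠ none,
    s0.card * T, Nat.mul_le_mul_right T hlen, ?_, ?_, ?_, ?_, ?_⟩
  · rw [Fintype.card_option,
      Fintype.card_congr (owE (V := V) (O := O) (Γ := Γ) (j := 0) (M := 0) (K := K))]
    simp only [Fintype.card_prod, Fintype.card_fun, Fintype.card_fin]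
    apply le_of_eq
    ring
  · intro t v
    cases v with
    | none => exact Or.inl rfl
    | some S =>
      by_cases h : rm e τ (t % T) = as (t / T) ∧ (rst R e (as (t / T)) (t % T) S).β.val +
          bit R e τ (as (t / T)) (t % T) (rst R e (as (t / T)) (t % T) S).s ≤ K
      · refine Or.inr ⟨t % T, (rst R e (as (t / T)) (t % T) S).s.v,
          (rst R e (as (t / T)) (t % T) S).s.c (rst R e (as (t / T)) (t % T) S).s.h, ?_⟩
        show (if _ then _ else _ : Finset P) = _
        rw [if_pos h]
      · refine Or.inl ?_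
        show (if _ then _ else _ : Finset P) = _
        rw [if_neg h]
  · intro t v x
    cases v with
    | none => exact ⟨none, rfl⟩
    | some S => exact ⟨_, rfl⟩
  · intro x
    exact (hOWN P V Γ L D A O R ac e τ T 0 K 0 w es as x).1 _
  · intro x
    obtain ⟨-, h2⟩ := hOWN P V Γ L D A O R ac e τ T 0 K 0 w es as x
    obtain ⟨h3, -⟩ := h2 s0.card
    constructor
    · rintro ⟨hT0, hS'⟩
      have h5 := (h3.1 hS').1
      have h6 := (hTRU P V Γ L D A O R ac e τ T w x).2 hV (by
        intro t ht h7
        obtain ⟨i, hi, hai⟩ := enu_surj s0 (e 0).1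
          (Finset.mem_image_of_mem (rm e τ) (Finset.mem_range.2 ht))
        apply h5 i hi
        rw [has, hai]
        exact phs_none h7 ht)
      obtain ⟨hTr, hv⟩ := h6
      refine ⟨hTr, ?_⟩
      rcases Nat.eq_zero_or_pos T with h | h
      · rw [hT0 h, h]
        rfl
      · exact hv h
    · rintro ⟨hTr, hw⟩
      obtain ⟨h8, h9⟩ := key hTRU hTr hw
      have h10 : ∑ i' ∈ range s0.card, ∑ t ∈ range T, evb R ac e τ T w x (as i') t =
          ∑ t ∈ range T, R.bits ac x t :=
        dsum fun t ht a => (h9 t ht a).1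
      have h11 := h3.2 ⟨fun i _ => h8 (as i), by rw [h10]; exact hK x⟩
      refine ⟨?_, h11⟩
      rintro rfl
      exact hw.symm

end Pool.Agent.TGM
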