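import Pool.Agent.TGM.St1

/-!
# Project TGM, module RNT: probabilities
-/

set_option autoImplicit false

open Finset Equiv MeasureTheory
open scoped Classical

namespace Pool.Agent.TGM

open Pool.Agent.TS (Query answer)
open Pool.Agent.TR (HasDegrees qans)
open Pool.Agent.HR (DS)
open Pool.Agent.PPS (SS Op)
open Pool.Agent.RMS (Cf TM Cell Dir act mvo rmap box Tra Vld rm S_SHF S_TRU S_OWN S_AVD)

namespace RNTx

section Runs

variable {n d : ℕ} {Q Γ Ω : Type} (M : TMachine n Q Γ (Cell d) (Dir d) Ω)

theorem run_stable (ω : Ω) (G : SimpleGraph (Fin n)) (t t' : ℕ) (h : t ≤ t')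
    (hs : (M.out act ω G t).isSome) : M.run act ω G t' = M.run act ω G t := by
  induction t', h using Nat.le_induction with
  | base => rfl
  | succ t' _ ih =>
    have hs' : (M.output (M.run act ω G t).v).isSome := hs
    show (if (M.output (M.run act ω G t').v).isSome then M.run act ω G t' else _) = _
    rw [ih, if_pos hs']

theorem out_none (ω : Ω) (G : SimpleGraph (Fin n)) (t t' : ℕ) (h : t ≤ t')
    (hs : M.out act ω G t' = none) : M.out act ω G t = none := by
  by_contra hcon
  have h1 : (M.out act ω G t).isSome := Option.ne_none_iff_isSome.1 hcon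
  unfold TMachine.out at hs hcon
  rw [run_stable M ω G t t' h h1] at hs
  exact hcon hs

theorem out_some (ω : Ω) (G : SimpleGraph (Fin n)) (t t' : ℕ) (b b' : Bool)
    (hs : M.out act ω G t = some b) (hs' : M.out act ω G t' = some b') : b = b' := by
  rcases le_total t t' with h | h
  · have := run_stable M ω G t t' h (by rw [hs]; rfl)
    unfold TMachine.out at hs hs'
    rw [this, hs] at hs'
    exact Option.some.inj hs'
  · have := run_stable M ω G t' t h (by rw [hs']; rfl)
    unfold TMachine.out at hs hs'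
    rw [this, hs'] at hs
    exact (Option.some.inj hs).symm

theorem step (ω : Ω) (G : SimpleGraph (Fin n)) (t : ℕ) :
    (M.run act ω G (t + 1)).p = (M.run act ω G t).p ∨
      ∃ δ : Dir d, (M.run act ω G (t + 1)).p = act δ (M.run act ω G t).p := by
  by_cases h : (M.output (M.run act ω G t).v).isSome
  · left
    rw [TMachine.run, if_pos h]
  · rw [TMachine.run, if_neg h]
    rcases hm : (M.move ω G t (M.run act ω G t)).2.2 with _ | δ
    · left
      rfl
    · right
      exact ⟨δ, rfl⟩

theorem one (hS : S_SHF) (ω : Ω) (G : SimpleGraph (Fin n)) (t Z : ℕ) (hZ : 0 < Z) :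
    ((range Z).filter fun o => (rmap d Z hZ o (M.run act ω G (t + 1)).p).1 ≠
      (rmap d Z hZ o (M.run act ω G t).p).1).card ≤ 1 := by
  rcases step M ω G t with h | ⟨δ, h⟩
  · rw [h]
    simp
  · rw [h]
    exact (hS d).1 Z hZ δ _

theorem chs_eq (ω : Ω) (G : SimpleGraph (Fin n)) {A O : Type} (e : Cell d ≃ A × O) (N : ℕ) :
    M.chs act e ω G N = ∑ t ∈ range N,
      if (e (M.run act ω G (t + 1)).p).1 ≠ (e (M.run act ω G t).p).1 then 1 else 0 :=
  Finset.card_filter _ _

/-- the sum over the shifts of the number of the changes -/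
theorem sum_chs (hS : S_SHF) (ω : Ω) (G : SimpleGraph (Fin n)) (N Z : ℕ) (hZ : 0 < Z) :
    ∑ o ∈ range Z, M.chs act (rmap d Z hZ o) ω G N ≤ N := by
  rw [Finset.sum_congr rfl fun o _ => chs_eq M ω G (rmap d Z hZ o) N, Finset.sum_comm]
  calc _ ≤ ∑ _t ∈ range N, 1 := Finset.sum_le_sum fun t _ => ?_
    _ = N := by simp
  refine le_trans (le_of_eq ?_) (one M hS ω G t Z hZ)
  rw [Finset.card_filter]
  refine Finset.sum_congr rfl fun o _ => ?_
  split_ifs <;> rfl

theorem few (hS : S_SHF) (ω : Ω) (G : SimpleGraph (Fin n)) (N m Z : ℕ) (hZ : 0 < Z)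
    (h : 20 * N ≤ (m + 1) * Z) :
    20 * ((range Z).filter fun o => ¬ M.chs act (rmap d Z hZ o) ω G N ≤ m).card ≤ Z := by
  have h1 : ((range Z).filter fun o => ¬ M.chs act (rmap d Z hZ o) ω G N ≤ m).card * (m + 1) ≤
      N := by
    refine le_trans ?_ (sum_chs M hS ω G N Z hZ)
    rw [← smul_eq_mul, ← Finset.sum_const]
    refine (Finset.sum_le_sum fun o ho => ?_).trans
      (Finset.sum_le_sum_of_subset (Finset.filter_subset _ _))
    have := (Finset.mem_filter.1 ho).2
    omega
  have h2 : 20 * ((range Z).filter fun o => ¬ M.chs act (rmap d Z hZ o) ω G N ≤ m).card *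
      (m + 1) ≤ Z * (m + 1) := by nlinarith
  exact Nat.le_of_mul_le_mul_right h2 (Nat.succ_pos m)

end Runs

section Prob

set_option linter.unusedSectionVars false

variable {n d : ℕ} {Q Γ Ω : Type} (M : TMachine n Q Γ (Cell d) (Dir d) Ω)
  [Fintype Q] [MeasurableSpace Ω] (μ : Measure Ω) [IsProbabilityMeasure μ]

theorem meas_out (G : SimpleGraph (Fin n)) (hm : ∀ t q, MeasurableSet {ω | (M.run act ω G t).v = q})
    (t : ℕ) (o : Option Bool) : MeasurableSet {ω | M.out act ω G t = o} := by
  have : {ω | M.out act ω G t = o} =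
      ⋃ x ∈ (Finset.univ.filter fun x : Q => M.output x = o), {ω | (M.run act ω G t).v = x} := by
    ext ω
    simp [TMachine.out]
  rw [this]
  exact Finset.measurableSet_biUnion _ fun x _ => hm t x

theorem meas_pair {α β : Type} [Countable α] [Countable β] (x : Ω → α) (y : Ω → β)
    (hx : ∀ a, MeasurableSet {ω | x ω = a}) (hy : ∀ b, MeasurableSet {ω | y ω = b})
    (P : α → β → Prop) : MeasurableSet {ω | P (x ω) (y ω)} := by
  have e : {ω | P (x ω) (y ω)} =
      ⋃ c ∈ {c : α × β | P c.1 c.2}, ({ω | x ω = c.1} ∩ {ω | y ω = c.2}) := by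
    ext ω
    simp
  rw [e]
  exact MeasurableSet.biUnion (Set.to_countable _) (fun c _ => (hx c.1).inter (hy c.2))

theorem meas_chs (G : SimpleGraph (Fin n)) {A O : Type} (e : Cell d ≃ A × O)
    (hp : ∀ t p, MeasurableSet {ω | (M.run act ω G t).p = p}) (N m : ℕ) :
    MeasurableSet {ω | M.chs act e ω G N ≤ m} := by
  have h1 : ∀ t, MeasurableSet {ω | (e (M.run act ω G (t + 1)).p).1 ≠ (e (M.run act ω G t).p).1} :=
    fun t => meas_pair (fun ω => (M.run act ω G (t + 1)).p) (fun ω => (M.run act ω G t).p)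
      (hp (t + 1)) (hp t) (fun a b => (e a).1 ≠ (e b).1)
  have h2 : ∀ ω, M.chs act e ω G N = ∑ t ∈ range N,
      if (e (M.run act ω G (t + 1)).p).1 ≠ (e (M.run act ω G t).p).1 then 1 else 0 :=
    fun ω => chs_eq M ω G e N
  have h3 : Measurable (fun ω => M.chs act e ω G N) := by
    rw [show (fun ω => M.chs act e ω G N) = fun ω => ∑ t ∈ range N,
      if (e (M.run act ω G (t + 1)).p).1 ≠ (e (M.run act ω G t).p).1 then 1 else 0 from
      funext h2]
    refine Finset.measurable_fun_sum _ fun t _ => ?_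
    exact Measurable.ite (h1 t) measurable_const measurable_const
  exact measurableSet_le h3 measurable_const

theorem prob_none (G : SimpleGraph (Fin n)) (T : ℝ) (N : ℕ) (hN : 0 < N) (hT : 20 * T ≤ N)
    (h : ∀ k : ℕ, ∑ t ∈ range k, μ.real {ω | M.out act ω G t = none} ≤ T) :
    μ.real {ω | M.out act ω G N = none} ≤ 1 / 20 := by
  have h1 : (N : ℝ) * μ.real {ω | M.out act ω G N = none} ≤ T := by
    refine le_trans ?_ (h N)
    rw [← nsmul_eq_mul]
    conv_lhs => rw [← Finset.card_range N, ← Finset.sum_const, Finset.card_range]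
    refine Finset.sum_le_sum fun t ht => ?_
    apply measureReal_mono
    · intro ω hω
      exact out_none M ω G t N (Finset.mem_range.1 ht).le hω
    · exact measure_ne_top _ _
  have hN0 : (0 : ℝ) < N := by exact_mod_cast hN
  nlinarith

theorem prob_free (G : SimpleGraph (Fin n)) (hG : G.CliqueFree 3)
    (hd : 2 / 3 ≤ μ.real {ω | ∃ t b, M.out act ω G t = some b ∧ (b = true ↔ ¬ G.CliqueFree 3)})
    (m : ℕ) (h2 : μ.real {ω | M.out act ω G m = none} ≤ 1 / 20) :
    37 / 60 ≤ μ.real {ω | M.out act ω G m = some false} := by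
  have h3 : μ.real {ω | ∃ t b, M.out act ω G t = some b ∧ (b = true ↔ ¬ G.CliqueFree 3)} ≤
      μ.real ({ω | M.out act ω G m = some false} ∪ {ω | M.out act ω G m = none}) := by
    apply measureReal_mono
    · rintro ω ⟨t, b, hb, hb'⟩
      have hbf : b = false := by
        cases b
        · rfl
        · exact absurd hG (hb'.1 rfl)
      subst hbf
      rcases ho : M.out act ω G m with _ | b'
      · exact Or.inr ho
      · left
        have := out_some M ω G t m false b' hb ho
        rw [← this] at ho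
        exact ho
    · exact measure_ne_top _ _
  have h4 := measureReal_union_le (μ := μ) {ω | M.out act ω G m = some false}
        {ω | M.out act ω G m = none}
  linarith

theorem prob_tri (G : SimpleGraph (Fin n)) (hG : ¬ G.CliqueFree 3)
    (hm : ∀ t q, MeasurableSet {ω | (M.run act ω G t).v = q})
    (hd : 2 / 3 ≤ μ.real {ω | ∃ t b, M.out act ω G t = some b ∧ (b = true ↔ ¬ G.CliqueFree 3)})
    (m : ℕ) : μ.real {ω | M.out act ω G m = some false} ≤ 1 / 3 := by
  have h1 : μ.real {ω | ∃ t b, M.out act ω G t = some b ∧ (b = true ↔ ¬ G.CliqueFree 3)} ≤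
      μ.real ({ω | M.out act ω G m = some false}ᶜ) := by
    apply measureReal_mono
    · rintro ω ⟨t, b, hb, hb'⟩ hω
      have hbt : b = true := hb'.2 hG
      subst hbt
      have := out_some M ω G t m true false hb hω
      exact absurd this (by decide)
    · exact measure_ne_top _ _
  rw [measureReal_compl (meas_out M G hm m (some false)), probReal_univ] at h1
  linarith

/-- the average over the shifts of the probability of more than `m` changes -/
theorem sum_bad (hS : S_SHF) (G : SimpleGraph (Fin n)) (N m Z : ℕ) (hZ : 0 < Z)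
    (h : 20 * N ≤ (m + 1) * Z)
    (hp : ∀ t p, MeasurableSet {ω | (M.run act ω G t).p = p}) :
    ∑ o ∈ range Z, μ.real {ω | ¬ M.chs act (rmap d Z hZ o) ω G N ≤ m} ≤ (Z : ℝ) / 20 := by
  have hA : ∀ o, MeasurableSet {ω | ¬ M.chs act (rmap d Z hZ o) ω G N ≤ m} :=
    fun o => (meas_chs M G (rmap d Z hZ o) hp N m).compl
  have hint : ∀ o, Integrable
      (({ω | ¬ M.chs act (rmap d Z hZ o) ω G N ≤ m} : Set Ω).indicator (fun _ => (1 : ℝ))) μ :=
    fun o => (integrable_const 1).indicator (hA o)
  have e1 : ∑ o ∈ range Z, μ.real {ω | ¬ M.chs act (rmap d Z hZ o) ω G N ≤ m} =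
      ∫ ω, ∑ o ∈ range Z, ({ω | ¬ M.chs act (rmap d Z hZ o) ω G N ≤ m} : Set Ω).indicator
        (fun _ => (1 : ℝ)) ω ∂μ := by
    rw [integral_finsetSum _ (fun o _ => hint o)]
    refine Finset.sum_congr rfl fun o _ => ?_
    rw [integral_indicator_const _ (hA o)]
    simp
  rw [e1]
  calc _ ≤ ∫ _ω, (Z : ℝ) / 20 ∂μ := by
        refine integral_mono (integrable_finsetSum _ fun o _ => hint o) (integrable_const _)
          fun ω => ?_
        have e2 : ∑ o ∈ range Z, ({ω | ¬ M.chs act (rmap d Z hZ o) ω G N ≤ m} : Set Ω).indicator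
            (fun _ => (1 : ℝ)) ω =
            (((range Z).filter fun o => ¬ M.chs act (rmap d Z hZ o) ω G N ≤ m).card : ℝ) := by
          rw [Finset.card_filter]
          push_cast
          refine Finset.sum_congr rfl fun o _ => ?_
          rw [Set.indicator_apply]
          rfl
        show ∑ o ∈ range Z, ({ω | ¬ M.chs act (rmap d Z hZ o) ω G N ≤ m} : Set Ω).indicator
            (fun _ => (1 : ℝ)) ω ≤ (Z : ℝ) / 20
        rw [e2]
        have h3 := few M hS ω G N m Z hZ h
        have h4 : (20 : ℝ) * (((range Z).filter fun o =>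
            ¬ M.chs act (rmap d Z hZ o) ω G N ≤ m).card : ℝ) ≤ Z := by exact_mod_cast h3
        linarith
    _ = (Z : ℝ) / 20 := by simp

end Prob

end RNTx

/-- **RNT** -/
theorem t_RNT (hS : S_SHF) : S_RNT := by
  intro n d Q Γ Ω _ _ μ _ M G T N m Z hZ hN hT h20 hv hp hd hE
  have hZ0 : (0 : ℝ) < Z := by exact_mod_cast hZ
  have hmeas : ∀ o, MeasurableSet {ω | M.out act ω G N = some false ∧
      M.chs act (rmap d Z hZ o) ω G N ≤ m} := fun o =>
    (RNTx.meas_out M G hv N (some false)).inter (RNTx.meas_chs M G (rmap d Z hZ o) hp N m)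
  refine ⟨hmeas, fun hG => ?_, fun hG => ?_⟩
  · have h1 := RNTx.prob_free M μ G hG hd N (RNTx.prob_none M μ G T N hN hT hE)
    have h2 := RNTx.sum_bad M μ hS G N m Z hZ h20 hp
    have h3 : ∀ o, μ.real {ω | M.out act ω G N = some false} ≤
        μ.real {ω | M.out act ω G N = some false ∧ M.chs act (rmap d Z hZ o) ω G N ≤ m} +
          μ.real {ω | ¬ M.chs act (rmap d Z hZ o) ω G N ≤ m} := by
      intro o
      refine le_trans (measureReal_mono ?_ (measure_ne_top _ _)) (measureReal_union_le _ _)
      intro ω hω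
      by_cases hc : M.chs act (rmap d Z hZ o) ω G N ≤ m
      · exact Or.inl ⟨hω, hc⟩
      · exact Or.inr hc
    have h4 : (Z : ℝ) * μ.real {ω | M.out act ω G N = some false} ≤
        ∑ o ∈ range Z, μ.real {ω | M.out act ω G N = some false ∧
          M.chs act (rmap d Z hZ o) ω G N ≤ m} +
        ∑ o ∈ range Z, μ.real {ω | ¬ M.chs act (rmap d Z hZ o) ω G N ≤ m} := by
      rw [← Finset.sum_add_distrib]
      calc (Z : ℝ) * μ.real {ω | M.out act ω G N = some false} =
          ∑ _o ∈ range Z, μ.real {ω | M.out act ω G N = some false} := by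
            rw [Finset.sum_const, Finset.card_range, nsmul_eq_mul]
        _ ≤ _ := Finset.sum_le_sum fun o _ => h3 o
    unfold prN
    rw [le_div_iff₀ hZ0]
    nlinarith
  · have h1 := RNTx.prob_tri M μ G hG hv hd N
    unfold prN
    rw [div_le_iff₀ hZ0]
    calc _ ≤ ∑ _o ∈ range Z, (1 / 3 : ℝ) := by
          refine Finset.sum_le_sum fun o _ => ?_
          refine le_trans (measureReal_mono ?_ (measure_ne_top _ _)) h1
          intro ω hω
          exact hω.1
      _ = 1 / 3 * Z := by
          rw [Finset.sum_const, Finset.card_range, nsmul_eq_mul]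
          ring

end Pool.Agent.TGM
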