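import Pool.Agent.TGM.St2

/-!
# Project TGM: module TAP (the main theorem)
-/

set_option autoImplicit false

open Finset Equiv MeasureTheory
open scoped Classical

namespace Pool.Agent.TGM

open Pool.Agent.TS Pool.Agent.TR Pool.Agent.HR Pool.Agent.HM
open Pool.Agent.RMS (Cell Dir act)

namespace TAPx

open Filter

theorem large (e : ℝ) (he : 0 < e) (A : ℝ) : ∃ s2 : ℕ, ∀ s : ℕ, s2 ≤ s →
    A ≤ (s : ℝ) ^ e ∧ 1 < Real.log s ∧ 1 < e * Real.log s ∧ 0 < (s : ℝ) := by
  have h1 : Tendsto (fun s : ℕ => (s : ℝ) ^ e) atTop atTop :=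
    (tendsto_rpow_atTop he).comp tendsto_natCast_atTop_atTop
  have h2 : Tendsto (fun s : ℕ => Real.log (s : ℝ)) atTop atTop :=
    Real.tendsto_log_atTop.comp tendsto_natCast_atTop_atTop
  have h3 : Tendsto (fun s : ℕ => e * Real.log (s : ℝ)) atTop atTop := h2.const_mul_atTop he
  have h4 := (h1.eventually_ge_atTop A).and ((h2.eventually_gt_atTop 1).and
    ((h3.eventually_gt_atTop 1).and (eventually_gt_atTop 0)))
  obtain ⟨s2, hs2⟩ := eventually_atTop.1 h4
  exact ⟨s2, fun s hs => ⟨(hs2 s hs).1, (hs2 s hs).2.1, (hs2 s hs).2.2.1,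
    Nat.cast_pos.2 (hs2 s hs).2.2.2⟩⟩

end TAPx

theorem t_TAP (h1 : S_ABM) (h2 : S_TGF) : S_TAP := by
  intro d ε hd hε hε1
  obtain ⟨c1, hc1, s₀, H⟩ := h1 0 (ε / 4) (by linarith) (by linarith)
  obtain ⟨s1, HT⟩ := h2 d ε hd hε hε1
  have hd' : (1 : ℝ) ≤ d := by exact_mod_cast hd
  have he : 0 < ε / (8 * d) := by positivity
  have he1 : ε / (8 * d) ≤ 1 := by
    rw [div_le_one (by positivity)]
    nlinarith
  obtain ⟨s2, hs2⟩ := TAPx.large (ε / (8 * d)) he s₀
  refine ⟨c1 * (ε / (8 * d)), by positivity, max s₀ (max s1 s2), fun s hs => ?_⟩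
  have hss0 : s₀ ≤ s := (le_max_left _ _).trans hs
  have hss1 : s1 ≤ s := ((le_max_left _ _).trans (le_max_right _ _)).trans hs
  have hss2 : s2 ≤ s := ((le_max_right _ _).trans (le_max_right _ _)).trans hs
  obtain ⟨h3, h4, h5, h6⟩ := hs2 s hss2
  obtain ⟨n, δ, h7, h8⟩ := H s ((s : ℝ) ^ (ε / (8 * d))) hss0 h3
  refine ⟨n, δ, h7, ?_⟩
  intro Q Γ Ω _ _ _ μ _ M T hQ hΓ hM hT
  have h9 := h8 T (HT s hss1 n δ Q Γ Ω μ M T hQ hΓ hM hT)
  refine le_trans ?_ h9
  have hlog : Real.log ((s : ℝ) ^ (ε / (8 * d))) = ε / (8 * d) * Real.log s := Real.log_rpow h6 _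
  have hmin : min (Real.log s) (Real.log ((s : ℝ) ^ (ε / (8 * d)))) =
      ε / (8 * d) * Real.log s := by
    rw [hlog]
    refine min_eq_right ?_
    nlinarith
  rw [hmin]
  have h10 : 0 < Real.log (ε / (8 * d) * Real.log s) := Real.log_pos h5
  have h11 : Real.log (ε / (8 * d) * Real.log s) ≤ Real.log (Real.log s) := by
    refine Real.log_le_log (by linarith) ?_
    nlinarith
  have h12 : ε / (8 * d) * Real.log s / Real.log (Real.log s) ≤
      ε / (8 * d) * Real.log s / Real.log (ε / (8 * d) * Real.log s) :=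
    div_le_div_of_nonneg_left (by linarith) h10 h11
  calc c1 * (ε / (8 * d)) * s * (Real.log s / Real.log (Real.log s))
      = c1 * s * (ε / (8 * d) * Real.log s / Real.log (Real.log s)) := by ring
    _ ≤ c1 * s * (ε / (8 * d) * Real.log s / Real.log (ε / (8 * d) * Real.log s)) :=
        mul_le_mul_of_nonneg_left h12 (by positivity)

end Pool.Agent.TGM
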