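import Pool.Agent.TGM.St1

/-!
# Project TGM, module TGF: tape machines as abstract randomised algorithms
-/

set_option autoImplicit false

open Finset Equiv MeasureTheory
open scoped Classical

namespace Pool.Agent.TGM

open Pool.Agent.TS (Query answer)
open Pool.Agent.TR (HasDegrees qans)
open Pool.Agent.HR (DS)
open Pool.Agent.RMS (Cf TM Cell Dir act mvo rmap box Tra Vld rm S_SHF S_TRU S_OWN S_AVD)

/-- `cnt` is monotone in the size of the questions -/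
theorem tgf_cnt_mono (v γ o b u u' N m r : ℕ) (h : u ≤ u') :
    cnt v γ o b u N m r ≤ cnt v γ o b u' N m r := by
  unfold cnt
  gcongr

theorem tgf_cnt_pos (v γ o b u N m r : ℕ) (h : 1 ≤ v) : 1 ≤ cnt v γ o b u N m r := by
  unfold cnt
  have h1 : 0 < v := h
  exact Nat.succ_le_of_lt (by positivity)

/-- the mean of events, each of which satisfies a linear inequality -/
theorem tgf_mean {ι Ω : Type} [Fintype ι] [MeasurableSpace Ω] (μ : Measure Ω)
    [IsProbabilityMeasure μ] (a : ι → ℝ) (c : ℝ) (S : ι → Set Ω) (hS : ∀ z, MeasurableSet (S z))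
    (h : ∀ ω, ∑ z, a z * (if ω ∈ S z then (1 : ℝ) else 0) ≤ c) : ∑ z, a z * μ.real (S z) ≤ c := by
  have hint : ∀ z, Integrable (fun ω => a z * (if ω ∈ S z then (1 : ℝ) else 0)) μ := by
    intro z
    have h1 : (fun ω => a z * (if ω ∈ S z then (1 : ℝ) else 0)) =
        (S z).indicator fun _ => a z := by
      funext ω
      by_cases h2 : ω ∈ S z
      · simp [h2]
      · simp [h2]
    rw [h1]
    exact (integrable_const (a z)).indicator (hS z)
  have h1 : ∑ z, a z * μ.real (S z) =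
      ∫ ω, ∑ z, a z * (if ω ∈ S z then (1 : ℝ) else 0) ∂μ := by
    rw [integral_finset_sum _ fun z _ => hint z]
    refine Finset.sum_congr rfl fun z _ => ?_
    have h1 : (fun ω => a z * (if ω ∈ S z then (1 : ℝ) else 0)) =
        (S z).indicator fun _ => a z := by
      funext ω
      by_cases h2 : ω ∈ S z
      · simp [h2]
      · simp [h2]
    rw [h1, integral_indicator_const _ (hS z), smul_eq_mul, mul_comm]
  rw [h1]
  calc ∫ ω, ∑ z, a z * (if ω ∈ S z then (1 : ℝ) else 0) ∂μ ≤ ∫ _ω, c ∂μ :=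
        integral_mono (integrable_finset_sum _ fun z _ => hint z) (integrable_const c) h
    _ = c := by simp

/-- The event of a seed and a shift is decided by an abstract computation. -/
theorem tgf_comp (h1 : S_SHF) (h2 : S_AVD) (h3 : S_DST) (h4 : S_ENT) {n d : ℕ} {Q Γ Ω K U : Type}
    [Fintype Q] [Fintype Γ] [Fintype K] [Fintype U] [DecidableEq K] [DecidableEq U]
    (M : TMachine n Q Γ (Cell d) (Dir d) Ω) (ω : Ω) (Gr : (K → Perm U) → SimpleGraph (Fin n))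
    (tq : Query n → Option (K × Bool × U)) (hq : QEnc Gr tq) (r ℓ m Z s o : ℕ) (hZ : 0 < Z)
    (hℓ : 3 ≤ ℓ) (hr : 0 < r) (hU : Fintype.card U ≤ s) :
    Comp (4 * r + 1) ℓ (r * ℓ) (cnt (Fintype.card Q) (Fintype.card Γ) (Z ^ d)
      ((2 * (r * ℓ) + 1) ^ d) s (r * ℓ) m (4 * r + 1)) fun z : K → Perm U =>
      M.out act ω (Gr z) (r * ℓ) = some false ∧
        M.chs act (rmap d Z hZ o) ω (Gr z) (r * ℓ) ≤ m := by
  obtain ⟨e1, e2⟩ := h4 n Q Γ (Cell d) (Dir d) Ω K U M act ω Gr tq hq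
  obtain ⟨X, Y, g, st, hg, hst, hhit, hsum, htg⟩ := h3 K U Q Γ (Cell d) (Dir d) (Cell d)
    (Fin d → Fin Z) (dtm M ω Gr tq) act (rmap d Z hZ o) (box d (r * ℓ)) (r * ℓ) m ((ℓ - 1) / 2)
    (4 * r + 1) e1
    (fun x t ht => ((h1 d).2.2.1.2 t (r * ℓ) ht) ((h2 (K × U × U) Q Γ d (dtm M ω Gr tq) x).1 t))
    (by omega)
    (by
      have hl : ℓ ≤ 4 * ((ℓ - 1) / 2) := by omega
      have hl0 : 0 < (ℓ - 1) / 2 := by omega
      nlinarith)
  refine ⟨X, Y, fun x => g x ∧ M.output (st x) = some false, fun z j => (hhit z j).trans (by omega),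
    hsum, ?_, ?_⟩
  · refine htg.trans ?_
    have hc : Fintype.card (Fin d → Fin Z) = Z ^ d := by simp
    rw [hc, (h1 d).2.2.2]
    exact tgf_cnt_mono _ _ _ _ _ _ _ _ _ hU
  · intro z
    have hchs : M.chs act (rmap d Z hZ o) ω (Gr z) (r * ℓ) =
        ∑ t ∈ range (r * ℓ), (dtm M ω Gr tq).chg act (rmap d Z hZ o) (xin z) t := by
      unfold TMachine.chs
      rw [Finset.card_filter]
      refine Finset.sum_congr rfl fun t _ => ?_
      unfold RMS.TM.chg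
      rw [e2 z (t + 1), e2 z t]
      by_cases h : (rmap d Z hZ o (M.run act ω (Gr z) (t + 1)).p).1 =
          (rmap d Z hZ o (M.run act ω (Gr z) t).p).1
      · rw [if_pos h, if_neg (not_not.2 h)]
      · rw [if_neg h, if_pos h]
    show (M.out act ω (Gr z) (r * ℓ) = some false ∧
        M.chs act (rmap d Z hZ o) ω (Gr z) (r * ℓ) ≤ m) ↔
      (g (Y.tr z) ∧ M.output (st (Y.tr z)) = some false)
    rw [hchs, ← hg z]
    constructor
    · rintro ⟨ho, hgz⟩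
      refine ⟨hgz, ?_⟩
      rw [hst z hgz, e2 z]
      exact ho
    · rintro ⟨hgz, ho⟩
      refine ⟨?_, hgz⟩
      rw [hst z hgz, e2 z] at ho
      exact ho

/-- TGF. -/
theorem t_TGF (h1 : S_SHF) (h2 : S_AVD) (h3 : S_DST) (h4 : S_ENT) (h5 : S_RNT) (h6 : S_TNU) :
    S_TGF := by
  intro d ε hd hε hε1
  obtain ⟨s1, hs1⟩ := h6 d ε hd hε hε1
  refine ⟨s1, fun s hs n δ Q Γ Ω _ _ _ μ _ M T hQ hΓ hdet hexp r ℓ hℓ hr hT hN => ?_⟩
  obtain ⟨Z, hZ, hcnt⟩ := hs1 s hs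
  have hΩ : Nonempty Ω := by
    by_contra hne
    rw [not_nonempty_iff] at hne
    have h7 : μ Set.univ = 1 := measure_univ
    rw [Set.univ_eq_empty_iff.2 hne, measure_empty] at h7
    exact zero_ne_one h7
  obtain ⟨ω0⟩ := hΩ
  have hv : 1 ≤ Fintype.card Q := Fintype.card_pos_iff.2 ⟨M.start ω0⟩
  have hγ : 1 ≤ Fintype.card Γ := Fintype.card_pos_iff.2 ⟨M.init ω0 0⟩
  have hN0 : 0 < r * ℓ := Nat.mul_pos hr (by omega)
  obtain ⟨m, hm, hlog⟩ := hcnt (Fintype.card Q) (Fintype.card Γ) s (r * ℓ) r hv hγ hQ hΓ le_rfl hN hr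
  have hrnt := fun (G : SimpleGraph (Fin n)) (hG : HasDegrees G δ) =>
    h5 n d Q Γ Ω μ M G T (r * ℓ) m Z hZ hN0 (by push_cast; exact hT) hm (hdet G hG).1
      (hdet G hG).2.1 (hdet G hG).2.2 (hexp G hG)
  refine ⟨prN M μ (r * ℓ) m Z hZ, cnt (Fintype.card Q) (Fintype.card Γ) (Z ^ d)
      ((2 * (r * ℓ) + 1) ^ d) s (r * ℓ) m (4 * r + 1), fun G hG => (hrnt G hG).2,
    tgf_cnt_pos _ _ _ _ _ _ _ _ hv, hlog, ?_⟩
  intro K U _ _ _ _ Gr tq hU hq hdeg a c hac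
  have hZ0 : (0 : ℝ) < Z := by exact_mod_cast hZ
  have key : ∀ o, ∑ z, a z * μ.real {ω | M.out act ω (Gr z) (r * ℓ) = some false ∧
      M.chs act (rmap d Z hZ o) ω (Gr z) (r * ℓ) ≤ m} ≤ c := by
    intro o
    refine tgf_mean μ a c _ (fun z => (hrnt (Gr z) (hdeg z)).1 o) fun ω => ?_
    exact hac _ (tgf_comp h1 h2 h3 h4 M ω Gr tq hq r ℓ m Z s o hZ hℓ hr hU)
  show ∑ z, a z * ((∑ o ∈ range Z, μ.real {ω | M.out act ω (Gr z) (r * ℓ) = some false ∧
      M.chs act (rmap d Z hZ o) ω (Gr z) (r * ℓ) ≤ m}) / Z) ≤ c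
  have h7 : ∑ z, a z * ((∑ o ∈ range Z, μ.real {ω | M.out act ω (Gr z) (r * ℓ) = some false ∧
      M.chs act (rmap d Z hZ o) ω (Gr z) (r * ℓ) ≤ m}) / Z) =
      (∑ o ∈ range Z, ∑ z, a z * μ.real {ω | M.out act ω (Gr z) (r * ℓ) = some false ∧
      M.chs act (rmap d Z hZ o) ω (Gr z) (r * ℓ) ≤ m}) / Z := by
    rw [Finset.sum_comm, Finset.sum_div]
    refine Finset.sum_congr rfl fun z _ => ?_
    rw [← Finset.mul_sum, mul_div_assoc]
  rw [h7, div_le_iff₀ hZ0]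
  calc ∑ o ∈ range Z, ∑ z, a z * μ.real {ω | M.out act ω (Gr z) (r * ℓ) = some false ∧
      M.chs act (rmap d Z hZ o) ω (Gr z) (r * ℓ) ≤ m} ≤ ∑ _o ∈ range Z, c :=
        Finset.sum_le_sum fun o _ => key o
    _ = c * Z := by rw [Finset.sum_const, card_range, nsmul_eq_mul, mul_comm]

end Pool.Agent.TGM
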