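import Pool.Agent.TGM.St1

/-!
# Project TGM: the union of abstract computations, one of which is right
-/

set_option autoImplicit false

open Finset Equiv MeasureTheory
open scoped Classical

namespace Pool.Agent.TGM

open Pool.Agent.HR (DS)

theorem t_UDS : S_UDS := by
  intro K U ι _ _ _ _ _ r ℓ N C X Y A hA h1 h2 h3
  have hA' : ∀ z, ∃ i, A i ((Y i).tr z) ∧ ∀ j, A j ((Y j).tr z) → j = i := hA
  choose ix hix huni using hA'
  have key : ∀ i j z z', i = j →
      (⟨i, (Y i).tr z⟩ : Σ i, X i) = ⟨j, (Y j).tr z'⟩ → (Y i).tr z = (Y i).tr z' := by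
    intro i j z z' hij h
    subst hij
    exact eq_of_heq (Sigma.mk.inj_iff.1 h).2
  let Y' : DS K U (Σ i, X i) r :=
    { hit := fun z => (Y (ix z)).hit z
      tr := fun z => ⟨ix z, (Y (ix z)).tr z⟩
      tg := Finset.univ.sigma fun i => (Y i).tg
      mem_tg := fun z => Finset.mem_sigma.2 ⟨Finset.mem_univ _, (Y (ix z)).mem_tg z⟩
      cl := by
        intro sd z z' F hoff htr c hc1 hc2
        have he : ix z = ix z' := congrArg Sigma.fst htr
        have htr2 : (Y (ix z)).tr z = (Y (ix z)).tr z' := key _ _ _ _ he htr
        have hc2' : ∀ j, c j = false → ∀ i ∈ (Y (ix z)).hit z' j, sd i.1 = true → i ∉ F := by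
          intro j hj i hi
          refine hc2 j hj i ?_
          rw [← he]
          exact hi
        obtain ⟨a, b⟩ := (Y (ix z)).cl sd z z' F hoff htr2 c hc1 hc2'
        have hm : ix z = ix (Pool.Agent.TR.mix sd z z') := by
          refine huni _ _ ?_
          rw [a]
          exact hix z
        constructor
        · have h4 : ∀ i, ix z = i → (⟨i, (Y i).tr (Pool.Agent.TR.mix sd z z')⟩ : Σ i, X i) =
              ⟨ix z, (Y (ix z)).tr z⟩ := by
            intro i hi
            subst hi
            rw [a]
          exact h4 _ hm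
        · intro j
          have h5 : ∀ i i', ix z = i → ix z = i' → (Y i).hit (Pool.Agent.TR.mix sd z z') j =
              if c j = true then (Y (ix z)).hit z j else (Y i').hit z' j := by
            intro i i' hi hi'
            subst hi
            subst hi'
            exact b j
          exact h5 _ _ hm he }
  refine ⟨Σ i, X i, Y', Sigma.fst, fun z => hix z, fun z j => h1 (ix z) z j,
    fun z => h2 (ix z) z, ?_⟩
  change (Finset.univ.sigma fun i => (Y i).tg).card ≤ Fintype.card ι * C
  rw [Finset.card_sigma]
  calc ∑ i, (Y i).tg.card ≤ ∑ _i : ι, C := Finset.sum_le_sum fun i _ => h3 i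
    _ = Fintype.card ι * C := by
      rw [Finset.sum_const, Finset.card_univ, smul_eq_mul]

end Pool.Agent.TGM
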