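import Pool.Agent.RAC.Main
import Pool.Agent.RSA.Ds
import Pool.Agent.RMS.SHF
import Pool.Agent.RMS.TRU
import Pool.Agent.RMS.OWN
import Pool.Agent.RMS.AVD
import Pool.Agent.TGM.LOC2
import Pool.Agent.TGM.UDS
import Pool.Agent.TGM.PRT
import Pool.Agent.TGM.DST
import Pool.Agent.TGM.ENT
import Pool.Agent.TGM.RNT
import Pool.Agent.TGM.TNU
import Pool.Agent.TGM.TGF
import Pool.Agent.TGM.CVT
import Pool.Agent.TGM.ABC
import Pool.Agent.TGM.QEN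
import Pool.Agent.TGM.ABP
import Pool.Agent.TGM.ABZ
import Pool.Agent.TGM.ABM
import Pool.Agent.TGM.TAP

/-!
# Project TGM: the main theorem
-/

set_option autoImplicit false

namespace Pool.Agent.TGM

open Pool.Agent.RAC (t_GOOD t_BOTH t_TFC t_HM t_EXP t_LIFT t_PERM t_CHO)

theorem abm : S_ABM :=
  t_ABM (t_ABZ (t_ABP (t_ABC (t_GOOD t_BOTH) t_TFC) t_HM t_QEN) (t_EXP (t_LIFT t_PERM)) t_TFC) t_CHO

theorem dst : S_DST := t_DST (t_LOC2 RMS.t_TRU RMS.t_OWN) t_UDS t_PRT (t_CVT RSA.t_DS)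

theorem tgf : S_TGF :=
  t_TGF RMS.t_SHF (RMS.t_AVD RMS.t_SHF) dst t_ENT (t_RNT RMS.t_SHF) t_TNU

theorem tap : S_TAP := t_TAP abm tgf

end Pool.Agent.TGM
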