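import Pool.Agent.TGM.St2

/-!
# Project TGM: the encoding of permutations as graphs
-/

set_option autoImplicit false
set_option linter.unusedVariables false

open Finset Equiv MeasureTheory
open scoped Classical

namespace Pool.Agent.TGM

open Pool.Agent.TS Pool.Agent.TR Pool.Agent.HR Pool.Agent.HM

theorem t_QEN : S_QEN := by
  intro J B U t d w pad eJ eB eU E z z' q h
  rw [map_conv, map_conv] at h
  exact answer_eq eJ eB eU E (toInp z) (toInp z') q h

end Pool.Agent.TGM
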